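import Pool.Agent.H631.RO.Prep

/-!
# Amalgamation of many conditions
-/

set_option autoImplicit false
set_option linter.unusedSectionVars false

namespace Pool.Agent.H631.RO

open Classical

variable {M I W : Type} {rs : I → Prop} [LinearOrder W] [WellFoundedLT W] {Γ : Par M W rs}

/-- the union of conditions on the coordinates in `S1`, and `q` on the coordinates in `S` -/
theorem unite {α : Type} (A : Finset α) (p : α → Cond M rs) {S S1 : Set I} (hS : Low Γ S)
    (q : Cond M rs) (hq : ∀ a ∈ A, le Γ S q (p a))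
    (hsh : ∀ l ∈ S1, l ∉ S → ∀ a ∈ A, ∀ b ∈ A, a ≠ b → p a l ≠ CV.top → p b l ≠ CV.top →
      (p a l).stem = (p b l).stem ∧ ¬ rs l) :
    ∃ q1 : Cond M rs, ∀ a ∈ A, le Γ S1 q1 (p a) := by
  let f : I → CV M := fun l => if l ∈ S then q l
    else if h : ∃ a ∈ A, p a l ≠ CV.top then
      if l ∈ S1 then ⟨(p h.choose l).stem, A.biUnion fun a => (p a l).pr⟩ else CV.top
    else CV.top
  have hf1 : ∀ l ∈ S, f l = q l := fun l hl => if_pos hl
  have hf2 : ∀ l ∉ S, l ∈ S1 → ∀ a ∈ A, p a l ≠ CV.top → 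
      f l = ⟨(p a l).stem, A.biUnion fun a => (p a l).pr⟩ := by
    intro l hl hl1 a ha hal
    have h : ∃ a ∈ A, p a l ≠ CV.top := ⟨a, ha, hal⟩
    simp only [f, if_neg hl, dif_pos h, if_pos hl1]
    by_cases hab : h.choose = a
    · rw [hab]
    · rw [(hsh l hl1 hl _ h.choose_spec.1 a ha hab h.choose_spec.2 hal).1]
  have hf3 : ∀ l ∉ S, (∀ a ∈ A, p a l = CV.top) → f l = CV.top := by
    intro l hl h
    have h' : ¬ ∃ a ∈ A, p a l ≠ CV.top := by
      rintro ⟨a, ha, h1⟩
      exact h1 (h a ha)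
    simp only [f, if_neg hl, dif_neg h']
  have hf4 : ∀ l ∉ S, l ∉ S1 → f l = CV.top := by
    intro l hl h
    simp only [f, if_neg hl, if_neg h]
    split_ifs <;> rfl
  have hfin : {l | f l ≠ CV.top}.Finite := by
    refine Set.Finite.subset (q.2.1.union (Set.Finite.biUnion (Finset.finite_toSet A)
      fun a _ => (p a).2.1)) ?_
    intro l hl
    have hl' : f l ≠ CV.top := hl
    by_cases h1 : l ∈ S
    · rw [hf1 l h1] at hl'
      exact Or.inl hl'
    · by_cases h2 : ∀ a ∈ A, p a l = CV.top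
      · exact absurd (hf3 l h1 h2) hl'
      · push Not at h2
        obtain ⟨a, ha, h3⟩ := h2
        exact Or.inr (Set.mem_biUnion (x := a) ha h3)
  have hlegit : ∀ l, rs l → Legit (f l) := by
    intro l hr
    by_cases h1 : l ∈ S
    · rw [hf1 l h1]
      exact q.legit hr
    by_cases h2 : ∀ a ∈ A, p a l = CV.top
    · rw [hf3 l h1 h2]
      exact legit_top
    by_cases h4 : l ∈ S1
    swap
    · rw [hf4 l h1 h4]
      exact legit_top
    push Not at h2
    obtain ⟨a, ha, h3⟩ := h2
    rw [hf2 l h1 h4 a ha h3]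
    have h5 : (A.biUnion fun a => (p a l).pr) = (p a l).pr := by
      apply Finset.Subset.antisymm
      · intro k hk
        obtain ⟨b, hb, hk⟩ := Finset.mem_biUnion.1 hk
        by_cases hab : a = b
        · rw [hab]
          exact hk
        · exfalso
          have h6 : p b l ≠ CV.top := by
            intro h
            rw [h] at hk
            exact absurd hk (Finset.notMem_empty k)
          exact (hsh l h4 h1 a ha b hb hab h3 h6).2 hr
      · intro k hk
        exact Finset.mem_biUnion.2 ⟨a, ha, hk⟩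
    rw [h5]
    exact (p a).legit hr
  obtain ⟨q1, hq1⟩ : ∃ q1 : Cond M rs, ∀ l, q1 l = f l := ⟨⟨f, hfin, hlegit⟩, fun _ => rfl⟩
  refine ⟨q1, fun a ha j hj => ?_⟩
  by_cases h1 : j ∈ S
  · exact ext_congr j (fun i hi => by rw [hq1, hf1 i (hS j h1 i hi)]) (by rw [hq1, hf1 j h1]) rfl
      (hq a ha j h1)
  by_cases h2 : p a j = CV.top
  · exact ext_top h2
  · refine ext_same_stem ?_ ?_
    · rw [hq1, hf2 j h1 hj a ha h2]
    · rw [hq1, hf2 j h1 hj a ha h2]
      intro k hk
      exact Finset.mem_biUnion.2 ⟨a, ha, hk⟩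

theorem low_union {S T : Set I} (hS : Low Γ S) (hT : Low Γ T) : Low Γ (S ∪ T) := by
  rintro j (hj | hj) i hi
  · exact Or.inl (hS j hj i hi)
  · exact Or.inr (hT j hj i hi)

theorem amalgN {tw : I → Prop} (hG : Good Γ tw) {α : Type} (p : α → Cond M rs) (t C N : ℕ) :
    ∀ (m : ℕ) (D : Finset I) (A : Finset α) (S : Set I) (q : Cond M rs), D.card = m →
      Low Γ S → (∀ j ∈ D, j ∉ S ∧ rs j) → (∀ a ∈ A, le Γ S q (p a)) →
      (∀ l ∉ S, ∀ a ∈ A, ∀ b ∈ A, a ≠ b → p a l ≠ CV.top → p b l ≠ CV.top →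
        (p a l).stem = (p b l).stem ∧ (rs l → l ∈ D)) →
      (∀ j ∈ D, ∀ a ∈ A, ∀ b ∈ A, (p a j).stem = (p b j).stem) →
      (∀ j ∈ D, ∀ a ∈ A, (p a j).stem.length ≤ t ∧ (p a j).pr.card ≤ C) →
      (∀ j ∈ D, ∀ a ∈ A, ∀ k ∈ (p a j).pr, ∀ x c, Γ.req j k = some (x, some c) →
        t < (p a c).stem.length ∧ ((p a c).stem.getD t ∅).Nonempty) →
      A.card * C ≤ wf t → Mf t ^ m * N ≤ A.card →
      ∃ A' ⊆ A, N ≤ A'.card ∧ ∃ P, ∀ a ∈ A', le Γ Set.univ P (p a) := by
  intro m
  induction m with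
  | zero =>
    intro D A S q hD hS _ hq hsh _ _ _ _ hcard
    rw [Finset.card_eq_zero] at hD
    subst hD
    rw [pow_zero, one_mul] at hcard
    obtain ⟨q1, h1⟩ := unite (Γ := Γ) (S1 := Set.univ) A p hS q hq
      (fun l _ hl a ha b hb hab h1 h2 => ⟨(hsh l hl a ha b hb hab h1 h2).1, fun hr =>
        absurd ((hsh l hl a ha b hb hab h1 h2).2 hr) (Finset.notMem_empty l)⟩)
    exact ⟨A, Finset.Subset.refl _, hcard, q1, h1⟩
  | succ m ih =>
    intro D A S q hD hS hDS hq hsh hst hlen hC hroom hcard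
    by_cases hN : N = 0
    · exact ⟨∅, Finset.empty_subset _, by rw [hN]; exact Nat.zero_le _, q,
        fun a ha => absurd ha (Finset.notMem_empty a)⟩
    have hDne : D.Nonempty := by
      rw [← Finset.card_pos, hD]
      exact Nat.succ_pos m
    obtain ⟨j, hjD, hjmin⟩ := D.exists_min_image Γ.rk hDne
    have hB : Low Γ (below Γ (Γ.rk j)) := low_below _
    have hS1 : Low Γ (S ∪ below Γ (Γ.rk j)) := low_union hS hB
    have hDS1 : ∀ j' ∈ D, j' ∉ S ∪ below Γ (Γ.rk j) := by
      rintro j' hj' (h | h)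
      · exact (hDS j' hj').1 h
      · exact absurd h (not_lt.2 (hjmin j' hj'))
    have hjr : rs j := (hDS j hjD).2
    obtain ⟨q1, hq1⟩ := unite (Γ := Γ) (S1 := S ∪ below Γ (Γ.rk j)) A p hS q hq
      (fun l hl1 hl a ha b hb hab h1 h2 => ⟨(hsh l hl a ha b hb hab h1 h2).1, fun hr =>
        hDS1 l ((hsh l hl a ha b hb hab h1 h2).2 hr) hl1⟩)
    -- decide the values
    obtain ⟨t1, ht1, htd⟩ := Val.decideF (Γ := Γ) hB
      ((A.biUnion fun a => (p a j).pr) ×ˢ Finset.range t)
      (fun z : M × ℕ => xOf (Γ.req j z.1)) (fun z => z.2) q1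
    have hdec : ∀ k i, ∃ v, k ∈ (A.biUnion fun a => (p a j).pr) → i < t →
        Val (le Γ (below Γ (Γ.rk j))) t1 (xOf (Γ.req j k)) i v := by
      intro k i
      by_cases h : k ∈ (A.biUnion fun a => (p a j).pr) ∧ i < t
      · obtain ⟨v, hv⟩ := htd (k, i) (Finset.mem_product.2 ⟨h.1, Finset.mem_range.2 h.2⟩)
        exact ⟨v, fun _ _ => hv⟩
      · exact ⟨0, fun h1 h2 => absurd ⟨h1, h2⟩ h⟩
    choose v hv using hdec
    set q2 : Cond M rs := mix (below Γ (Γ.rk j)) t1 q1 with hq2
    have hq21 : le Γ (S ∪ below Γ (Γ.rk j)) q2 q1 := mix_le hB ht1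
    have hq2t : le Γ (below Γ (Γ.rk j)) q2 t1 := mix_eq hB _ _
    -- the patterns
    let π : α → (Fin t → Finset (Fin (Bf t))) := fun a i =>
      Finset.univ.filter fun n => ∃ k ∈ (p a j).pr, v k i = (n : ℕ)
    have hcardT : (Finset.univ : Finset (Fin t → Finset (Fin (Bf t)))).card = Mf t := by
      rw [Finset.card_univ, Fintype.card_fun, Fintype.card_finset, Fintype.card_fin,
        Fintype.card_fin, Mf]
    obtain ⟨y, -, hy⟩ := Finset.exists_le_card_fiber_of_mul_le_card_of_maps_to (f := π)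
      (s := A) (t := Finset.univ) (n := Mf t ^ m * N) (fun _ _ => Finset.mem_univ _)
      Finset.univ_nonempty (by
        rw [hcardT, ← mul_assoc, ← pow_succ']
        exact hcard)
    obtain ⟨A1, hA1⟩ : ∃ A1, A1 = A.filter fun a => π a = y := ⟨_, rfl⟩
    rw [← hA1] at hy
    have hA1A : A1 ⊆ A := by
      rw [hA1]
      exact Finset.filter_subset _ _
    have hMpos : 0 < Mf t ^ m * N := by
      refine Nat.mul_pos (pow_pos ?_ _) (Nat.pos_of_ne_zero hN)
      exact pow_pos (pow_pos (by norm_num) _) _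
    obtain ⟨a0, ha0⟩ : A1.Nonempty := Finset.card_pos.1 (hMpos.trans_le hy)
    set len := (p a0 j).stem.length with hlendef
    have hlent : len ≤ t := (hlen j hjD a0 (hA1A ha0)).1
    let g : ℕ → Finset ℕ := fun i =>
      ((p a0 j).pr.image fun k => v k (len + i)).filter fun n => n < Bf t
    let st : List (Finset ℕ) := (p a0 j).stem ++ (List.range (t - len)).map g
    have hstlen : st.length = t := by
      simp only [st, List.length_append, List.length_map, List.length_range, ← hlendef]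
      omega
    have hst1 : ∀ i < len, st.getD i ∅ = (p a0 j).stem.getD i ∅ := by
      intro i hi
      exact List.getD_append _ _ _ _ hi
    have hst2 : ∀ i, len ≤ i → i < t → st.getD i ∅ =
        ((p a0 j).pr.image fun k => v k i).filter fun n => n < Bf t := by
      intro i hi hi'
      have h1 : st.getD i ∅ = g (i - len) := getD_append_map _ hi (by omega)
      rw [h1]
      have h3 : len + (i - len) = i := by omega
      simp only [g, h3]
    have hmem : ∀ a ∈ A1, ∀ i, len ≤ i → i < t → ∀ k ∈ (p a j).pr, v k i < Bf t →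
        v k i ∈ st.getD i ∅ := by
      intro a ha i hi hi' k hk hlt
      rw [hA1] at ha ha0
      have h1 : π a = π a0 := (Finset.mem_filter.1 ha).2.trans (Finset.mem_filter.1 ha0).2.symm
      have h2 : (⟨v k i, hlt⟩ : Fin (Bf t)) ∈ π a ⟨i, hi'⟩ :=
        Finset.mem_filter.2 ⟨Finset.mem_univ _, k, hk, rfl⟩
      rw [h1] at h2
      obtain ⟨k', hk', h3⟩ := (Finset.mem_filter.1 h2).2
      rw [hst2 i hi hi']
      exact Finset.mem_filter.2 ⟨Finset.mem_image.2 ⟨k', hk', h3⟩, hlt⟩
    have hleg : rs j → Legit (⟨st, A1.biUnion fun a => (p a j).pr⟩ : CV M) := by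
      intro _
      have hl := (p a0).legit hjr
      refine ⟨?_, ?_⟩
      · show (A1.biUnion fun a => (p a j).pr).card ≤ wf st.length
        rw [hstlen]
        refine (Finset.card_biUnion_le_card_mul _ _ C fun a ha =>
          (hlen j hjD a (hA1A ha)).2).trans ?_
        exact (Nat.mul_le_mul_right C (Finset.card_le_card hA1A)).trans hroom
      · intro i hi
        show (st.getD i ∅).card ≤ wf i
        have hi' : i < t := by
          have : i < st.length := hi
          omega
        by_cases h : i < len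
        · rw [hst1 i h]
          exact hl.2 i h
        · rw [hst2 i (not_lt.1 h) hi']
          exact (Finset.card_filter_le _ _).trans
            (Finset.card_image_le.trans (hl.1.trans (wf_mono (not_lt.1 h))))
    obtain ⟨q3, hq3⟩ : ∃ q3 : Cond M rs, q3 = upd q2 j ⟨st, A1.biUnion fun a => (p a j).pr⟩ hleg :=
      ⟨_, rfl⟩
    have hq3j : q3 j = ⟨st, A1.biUnion fun a => (p a j).pr⟩ := by
      rw [hq3]
      exact upd_same _ _ _ _
    have hq3o : ∀ i, i ≠ j → q3 i = q2 i := by
      intro i hi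
      rw [hq3]
      exact upd_of_ne _ _ _ hi
    have hjS1 : j ∉ S ∪ below Γ (Γ.rk j) := hDS1 j hjD
    have hq3S : ∀ i ∈ S ∪ below Γ (Γ.rk j), q3 i = q2 i := fun i hi =>
      hq3o i fun h => hjS1 (h ▸ hi)
    have hS2 : Low Γ (insert j (S ∪ below Γ (Γ.rk j))) := by
      rintro i (rfl | hi) l hl
      · exact Or.inr (Or.inr hl)
      · exact Or.inr (hS1 i hi l hl)
    have hq3p : ∀ a ∈ A1, le Γ (insert j (S ∪ below Γ (Γ.rk j))) q3 (p a) := by
      intro a ha
      have h1 : le Γ (S ∪ below Γ (Γ.rk j)) q3 (p a) := by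
        refine le_congr hS1 (fun i hi => (hq3S i hi).symm) (fun _ _ => rfl) ?_
        exact le_trans' hS1 hq21 (hq1 a (hA1A ha))
      rintro i (rfl | hi)
      swap
      · exact h1 i hi
      have hsta : (p a i).stem = (p a0 i).stem := hst i hjD a (hA1A ha) a0 (hA1A ha0)
      have h3t : le Γ (below Γ (Γ.rk i)) q3 t1 :=
        le_congr hB (fun l hl => (hq3S l (Or.inr hl)).symm) (fun _ _ => rfl) hq2t
      rw [ext_iff, hq3j]
      refine ⟨by rw [hsta]; exact List.prefix_append _ _,
        fun k hk => Finset.mem_biUnion.2 ⟨a, ha, hk⟩, ?_, ?_⟩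
      · intro k hk x c hx s hs1 hs2 t' ht' n hn u hu hnu
        rw [hsta] at hs1
        have hs2' : s < t := by
          have : s < st.length := hs2
          omega
        have hkA : k ∈ (A.biUnion fun a => (p a i).pr) := Finset.mem_biUnion.2 ⟨a, hA1A ha, hk⟩
        have h4 : Val (le Γ (below Γ (Γ.rk i))) t' x s (v k s) := by
          have := (hv k s hkA hs2').mono hB (le_trans' hB ht' h3t)
          rwa [hx] at this
        have h5 : n = v k s := Val.unique hn h4
        subst h5
        have hcB : Γ.rk c < Γ.rk i := (hG.loc i k x c hx).2.2.1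
        have h6 : (p a c).stem <+: (t' c).stem :=
          ext_stem (le_trans' hB ht' (le_mono Set.subset_union_right h1) c hcB)
        obtain ⟨h7, h8⟩ := hC i hjD a (hA1A ha) k hk x c hx
        have h9 : u ≤ t := by
          by_contra hcon
          push Not at hcon
          refine hu.2.2.2 t hs2' hcon ?_
          rw [getD_prefix h6 h7]
          exact h8
        exact hmem a ha s hs1 hs2' k hk (lt_of_lt_of_le hnu (Bf_mono h9))
      · intro k hk x hx
        exact absurd hjr (hG.dis i (hG.spa i k x hx).1)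
    obtain ⟨A', hA', hNA', P, hP⟩ := ih (D.erase j) A1 (insert j (S ∪ below Γ (Γ.rk j))) q3
      (by rw [Finset.card_erase_of_mem hjD, hD]; rfl) hS2
      (fun j' hj' => ⟨by
        rintro (h | h)
        · exact Finset.ne_of_mem_erase hj' h
        · exact hDS1 j' (Finset.mem_of_mem_erase hj') h, (hDS j' (Finset.mem_of_mem_erase hj')).2⟩)
      hq3p
      (fun l hl a ha b hb hab h1 h2 => by
        have hlS : l ∉ S := fun h => hl (Or.inr (Or.inl h))
        have h3 := hsh l hlS a (hA1A ha) b (hA1A hb) hab h1 h2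
        exact ⟨h3.1, fun hr => Finset.mem_erase.2 ⟨fun h => hl (Or.inl h), h3.2 hr⟩⟩)
      (fun j' hj' a ha b hb => hst j' (Finset.mem_of_mem_erase hj') a (hA1A ha) b (hA1A hb))
      (fun j' hj' a ha => hlen j' (Finset.mem_of_mem_erase hj') a (hA1A ha))
      (fun j' hj' a ha => hC j' (Finset.mem_of_mem_erase hj') a (hA1A ha))
      ((Nat.mul_le_mul_right C (Finset.card_le_card hA1A)).trans hroom) hy
    exact ⟨A', hA'.trans hA1A, hNA', P, hP⟩

end Pool.Agent.H631.RO
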