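import Pool.Agent.H631.RO.Forced

/-!
# Bookkeeping: the parameters, the cardinalities, and the forcing theorem
-/

set_option autoImplicit false
set_option linter.unusedSectionVars false

namespace Pool.Agent.H631.RO

open Pool.Agent.Helper669.Forcing

/-- the coordinates: `lz k` Cohen reals of the lowest rank, `sp β` a sparse set of rank `β`,
`sl β ξ` a slalom of rank `β` for the sparse set of rank `ξ` -/
inductive Ix (K Ω : Type) : Type
  | lz (k : K) : Ix K Ω
  | sp (β : Ω) : Ix K Ω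
  | sl (β ξ : Ω) : Ix K Ω

/-- the restricted coordinates -/
def Ix.rs {K Ω : Type} : Ix K Ω → Prop
  | .sl _ _ => True
  | _ => False

/-- the sparse coordinates -/
def Ix.tw {K Ω : Type} : Ix K Ω → Prop
  | .sp _ => True
  | _ => False

/-- the rank -/
def Ix.rk {K Ω : Type} : Ix K Ω → WithBot Ω
  | .lz _ => ⊥
  | .sp β => β
  | .sl β _ => β

/-- the raw names for these coordinates; the promises are indexed by `Λ` -/
abbrev NmI (K Ω Λ : Type) : Type := Nm Λ (Ix.rs (K := K) (Ω := Ω))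

variable {K Ω Λ : Type} [LinearOrder Ω] [WellFoundedLT Ω]

/-- the coordinates of rank less than `β` -/
def blw (K : Type) {Ω : Type} [LinearOrder Ω] (β : Ω) : Set (Ix K Ω) :=
  {i | Ix.rk i < (β : WithBot Ω)}

open Classical in
/-- the requirements -/
noncomputable def reqB (code : NmI K Ω Λ → Λ) :
    Ix K Ω → Λ → Option (NmI K Ω Λ × Option (Ix K Ω))
  | .lz _, _ => none
  | .sp β, m => if h : ∃ x, code x = m ∧ Supp (blw K β) x then some (h.choose, none) else none
  | .sl β ξ, m => if h : ∃ x, code x = m ∧ Supp (blw K β) x ∧ ξ < β then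
      some (h.choose, some (.sp ξ)) else none

section

variable {code : NmI K Ω Λ → Λ}

/-- the parameters -/
noncomputable def GB (code : NmI K Ω Λ → Λ) : Par Λ (WithBot Ω) (Ix.rs (K := K) (Ω := Ω)) :=
  ⟨Ix.rk, reqB code⟩

theorem good : Good (GB code) Ix.tw where
  loc := by
    intro j k x c h
    rcases j with l | β | ⟨β, ξ⟩
    · simp [GB, reqB] at h
    · simp only [GB, reqB] at h
      split_ifs at h with h1
      simp at h
    · simp only [GB, reqB] at h
      split_ifs at h with h1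
      simp only [Option.some.injEq, Prod.mk.injEq] at h
      obtain ⟨h2, h3⟩ := h
      subst h3
      refine ⟨trivial, trivial, WithBot.coe_lt_coe.2 h1.choose_spec.2.2, ?_⟩
      rw [← h2]
      exact h1.choose_spec.2.1
  spa := by
    intro j k x h
    rcases j with l | β | ⟨β, ξ⟩
    · simp [GB, reqB] at h
    · simp only [GB, reqB] at h
      split_ifs at h with h1
      simp only [Option.some.injEq, Prod.mk.injEq] at h
      refine ⟨trivial, ?_⟩
      rw [← h.1]
      exact h1.choose_spec.2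
    · simp only [GB, reqB] at h
      split_ifs at h with h1
      simp at h
  dis := by
    intro j h h'
    rcases j with l | β | ⟨β, ξ⟩
    · exact h
    · exact h'
    · exact h
  coh := by
    intro j h h' k
    rcases j with l | β | ⟨β, ξ⟩
    · rfl
    · exact absurd trivial h
    · exact absurd trivial h'
  uni := by
    intro j k k' x x' c c' h h'
    rcases j with l | β | ⟨β, ξ⟩
    · simp [GB, reqB] at h
    · simp only [GB, reqB] at h
      split_ifs at h with h1
      simp at h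
    · simp only [GB, reqB] at h h'
      split_ifs at h with h1
      split_ifs at h' with h2
      simp only [Option.some.injEq, Prod.mk.injEq] at h h'
      rw [← h.2, ← h'.2]

theorem req_sp (hcode : Function.Injective code) {β : Ω} {x : NmI K Ω Λ}
    (h : Supp (blw K β) x) : (GB code).req (.sp β) (code x) = some (x, none) := by
  have h1 : ∃ x', code x' = code x ∧ Supp (blw K β) x' := ⟨x, rfl, h⟩
  have h2 : h1.choose = x := hcode h1.choose_spec.1
  simp only [GB, reqB]
  rw [dif_pos h1, h2]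

theorem req_sl (hcode : Function.Injective code) {β ξ : Ω} (hξ : ξ < β) {x : NmI K Ω Λ}
    (h : Supp (blw K β) x) :
    (GB code).req (.sl β ξ) (code x) = some (x, some (.sp ξ)) := by
  have h1 : ∃ x', code x' = code x ∧ Supp (blw K β) x' ∧ ξ < β := ⟨x, rfl, h, hξ⟩
  have h2 : h1.choose = x := hcode h1.choose_spec.1
  simp only [GB, reqB]
  rw [dif_pos h1, h2]

end

/-! ### Bounds -/

theorem bddNat {T : Type} [Infinite T] (hb : ∀ f : T → Ω, ∃ β, ∀ k, f k < β) (g : ℕ → Ω) :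
    ∃ β, ∀ n, g n < β := by
  let ι : ℕ ↪ T := Infinite.natEmbedding T
  obtain ⟨β, hβ⟩ := hb fun k => g (Function.invFun ι k)
  refine ⟨β, fun n => ?_⟩
  have := hβ (ι n)
  rwa [Function.leftInverse_invFun ι.injective n] at this

/-- a bound of the rank in `Ω` -/
def rkO (ω : Ω) : Ix K Ω → Ω
  | .lz _ => ω
  | .sp β => β
  | .sl β _ => β

theorem rk_le (ω : Ω) (i : Ix K Ω) : Ix.rk i ≤ ((rkO ω i : Ω) : WithBot Ω) := by
  rcases i with l | β | ⟨β, a⟩
  · exact bot_le
  · exact le_rfl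
  · exact le_rfl

theorem supp_bdd {T : Type} [Infinite T] [Nonempty Ω] (hb : ∀ f : T → Ω, ∃ β, ∀ k, f k < β)
    (x : NmI K Ω Λ) : ∃ β : Ω, Supp (blw K β) x := by
  classical
  obtain ⟨ω⟩ := ‹Nonempty Ω›
  have h1 : ∀ nm : ℕ × ℕ, ∃ M : Ω, ∀ u v, x nm.1 nm.2 = some (u, v) → ∀ i, u i ≠ CV.top →
      rkO ω i ≤ M := by
    rintro ⟨n, m⟩
    rcases hx : x n m with _ | ⟨u, v⟩
    · exact ⟨ω, fun u v h => by simp at h⟩
    · obtain ⟨M, hM⟩ := (u.supp.image (rkO ω)).exists_le
      refine ⟨M, fun u' v' h i hi => ?_⟩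
      simp only [Option.some.injEq, Prod.mk.injEq] at h
      obtain ⟨rfl, rfl⟩ := h
      exact hM _ (Finset.mem_image_of_mem _ (Cond.mem_supp.2 hi))
  choose B hB using h1
  obtain ⟨β, hβ⟩ := bddNat hb fun n => B (Nat.unpair n)
  refine ⟨β, fun n m u v h i hi => ?_⟩
  by_contra hcon
  apply hi
  have h2 := hB (n, m) u v h i hcon
  have h3 := hβ (Nat.pair n m)
  rw [Nat.unpair_pair] at h3
  exact lt_of_le_of_lt (rk_le ω i) (WithBot.coe_lt_coe.2 (lt_of_le_of_lt h2 h3))

theorem blw_mono {β β' : Ω} (h : β ≤ β') : blw K β ⊆ blw K β' :=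
  fun _ hi => lt_of_lt_of_le hi (WithBot.coe_le_coe.2 h)

/-- The forcing theorem, from the parts. -/
theorem forcing_of_card {T : Type} [Uncountable K] [Infinite T] [Nonempty Ω]
    (hb : ∀ f : T → Ω, ∃ β, ∀ k, f k < β) (code : NmI K Ω Λ → Λ)
    (hcode : Function.Injective code) :
    CCC (GB code) ∧ ∀ p : PP (GB code), p ∈ PhiHolds (PP (GB code)) K T := by
  have hG : Good (GB code) Ix.tw := good
  refine ⟨ccc hG, fun p => ⟨?_, ?_⟩⟩
  · exact notLoc hG (fun k => Ix.lz k) (fun k k' h => Ix.lz.inj h) (fun _ h => h) (fun _ h => h) p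
  · refine sparseCap hG ?_ p
    intro X
    choose b hbX using fun k => supp_bdd (T := T) hb (X k)
    obtain ⟨ξ, hξ⟩ := hb b
    refine ⟨.sp ξ, trivial, fun k => ⟨code (X k), req_sp hcode ((hbX k).mono
      (blw_mono (hξ k).le))⟩, fun x => ?_⟩
    choose b' hbx using fun k => supp_bdd (T := T) hb (x k)
    obtain ⟨β, hβ⟩ := hb fun k => max ξ (b' k)
    obtain ⟨k0⟩ : Nonempty T := inferInstance
    refine ⟨.sl β ξ, fun k => ⟨code (x k), req_sl hcode
      (lt_of_le_of_lt (le_max_left _ _) (hβ k0)) ((hbx k).mono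
        (blw_mono ((le_max_right _ _).trans (hβ k).le)))⟩⟩

/-! ### Cardinalities -/

open Cardinal
open scoped Cardinal

/-- the index set of the coordinates as a sum -/
def ixEmb {K Ω : Type} : Ix K Ω → K ⊕ (Ω ⊕ (Ω × Ω))
  | .lz l => Sum.inl l
  | .sp β => Sum.inr (Sum.inl β)
  | .sl β a => Sum.inr (Sum.inr (β, a))

theorem ixEmb_inj {K Ω : Type} : Function.Injective (ixEmb (K := K) (Ω := Ω)) := by
  intro x y h
  cases x <;> cases y <;> simp [ixEmb] at h <;> simp [h]

theorem mk_Ix {K Ω : Type} {c : Cardinal.{0}} (hc : ℵ₀ ≤ c) (hK : #K ≤ c) (hΩ : #Ω ≤ c) :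
    #(Ix K Ω) ≤ c := by
  refine (Cardinal.mk_le_of_injective ixEmb_inj).trans ?_
  simp only [Cardinal.mk_sum, Cardinal.mk_prod, Cardinal.lift_id]
  have h1 : #Ω * #Ω ≤ c := (mul_le_mul' hΩ hΩ).trans (Cardinal.mul_eq_self hc).le
  have h2 : ∀ a b : Cardinal.{0}, a ≤ c → b ≤ c → a + b ≤ c := fun a b ha hb =>
    (add_le_add ha hb).trans (Cardinal.add_eq_self hc).le
  exact h2 _ _ hK (h2 _ _ hΩ h1)

open Classical in
theorem mk_CV {M : Type} {c : Cardinal.{0}} (hc : ℵ₀ ≤ c) (hM : #M ≤ c) : #(CV M) ≤ c := by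
  let f : CV M → List (Finset ℕ) × Finset M := fun v => (v.stem, v.pr)
  have hf : Function.Injective f := by
    rintro ⟨a, b⟩ ⟨a', b'⟩ h
    simp only [f, Prod.mk.injEq] at h
    rw [h.1, h.2]
  refine (Cardinal.mk_le_of_injective hf).trans ?_
  rw [Cardinal.mk_prod, Cardinal.lift_id, Cardinal.lift_id]
  have h1 : #(Finset M) ≤ c := by
    rcases finite_or_infinite M with h | h
    · exact (Cardinal.lt_aleph0_of_finite _).le.trans hc
    · rw [Cardinal.mk_finset_of_infinite]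
      exact hM
  calc #(List (Finset ℕ)) * #(Finset M) ≤ ℵ₀ * c := mul_le_mul' Cardinal.mk_le_aleph0 h1
    _ = c := Cardinal.aleph0_mul_eq hc

open Classical in
theorem mk_Cond {M I : Type} {rs : I → Prop} {c : Cardinal.{0}} (hc : ℵ₀ ≤ c) (hM : #M ≤ c)
    (hI : #I ≤ c) : #(Cond M rs) ≤ c := by
  let f : Cond M rs → Finset (I × CV M) := fun u => u.supp.image fun i => (i, u i)
  have hf : Function.Injective f := by
    intro u w h
    have key : ∀ u w : Cond M rs, f u = f w → ∀ i : I, u i ≠ CV.top → w i = u i := by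
      intro u w h i hi
      have h2 : (i, u i) ∈ f u := Finset.mem_image.2 ⟨i, Cond.mem_supp.2 hi, rfl⟩
      rw [h] at h2
      obtain ⟨i', _, h3⟩ := Finset.mem_image.1 h2
      rw [Prod.mk.injEq] at h3
      obtain ⟨rfl, h4⟩ := h3
      exact h4
    apply Cond.ext'
    intro i
    by_cases h2 : u i = CV.top
    · by_cases h3 : w i = CV.top
      · rw [h2, h3]
      · exact key w u h.symm i h3
    · exact (key u w h i h2).symm
  refine (Cardinal.mk_le_of_injective hf).trans ?_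
  have h2 : #(I × CV M) ≤ c := by
    rw [Cardinal.mk_prod, Cardinal.lift_id, Cardinal.lift_id]
    calc #I * #(CV M) ≤ c * c := mul_le_mul' hI (mk_CV hc hM)
      _ = c := Cardinal.mul_eq_self hc
  rcases finite_or_infinite (I × CV M) with h3 | h3
  · exact (Cardinal.lt_aleph0_of_finite _).le.trans hc
  · rw [Cardinal.mk_finset_of_infinite]
    exact h2

theorem mk_Nm {M I : Type} {rs : I → Prop} {c : Cardinal.{0}} (hc : ℵ₀ ≤ c) (hc2 : c ^ ℵ₀ = c)
    (hM : #M ≤ c) (hI : #I ≤ c) : #(Nm M rs) ≤ c := by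
  have h1 : #(Option (Cond M rs × ℕ)) ≤ c := by
    rw [Cardinal.mk_option, Cardinal.mk_prod, Cardinal.lift_id, Cardinal.lift_id]
    have h2 : #(Cond M rs) * #ℕ ≤ c :=
      (mul_le_mul' (mk_Cond hc hM hI) Cardinal.mk_le_aleph0).trans (Cardinal.mul_aleph0_eq hc).le
    calc #(Cond M rs) * #ℕ + 1 ≤ c + c := add_le_add h2 (Cardinal.one_le_aleph0.trans hc)
      _ = c := Cardinal.add_eq_self hc
  have h2 : #(ℕ → ℕ → Option (Cond M rs × ℕ)) = #(Option (Cond M rs × ℕ)) ^ ℵ₀ := by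
    rw [← Cardinal.mk_congr (Equiv.curry ℕ ℕ (Option (Cond M rs × ℕ)))]
    simp
  show #(ℕ → ℕ → Option (Cond M rs × ℕ)) ≤ c
  rw [h2]
  conv_rhs => rw [← hc2]
  exact Cardinal.power_le_power_right h1

/-- an unbounded map into a successor cardinal -/
theorem bdd_succ {T : Type} [Infinite T] (f : T → (Order.succ #T).ord.ToType) :
    ∃ β, ∀ k, f k < β := by
  by_contra hcon
  push Not at hcon
  have h1 : (Set.univ : Set (Order.succ #T).ord.ToType) = ⋃ k, Set.Iic (f k) := by
    ext β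
    simp only [Set.mem_univ, Set.mem_iUnion, Set.mem_Iic, true_iff]
    exact hcon β
  have hT : ℵ₀ ≤ #T := Cardinal.aleph0_le_mk T
  have h2 : ∀ k, #(Set.Iic (f k)) ≤ #T := by
    intro k
    have h30 : #(Set.Iio (f k)) < Order.succ #T := Cardinal.mk_Iio_toType_ord_lt (f k)
    have h3 : #(Set.Iio (f k)) ≤ #T := Order.lt_succ_iff.1 h30
    have h4 : Set.Iic (f k) = insert (f k) (Set.Iio (f k)) := by
      ext β
      simp only [Set.mem_Iic, Set.mem_insert_iff, Set.mem_Iio]
      exact le_iff_eq_or_lt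
    rw [h4]
    refine (Cardinal.mk_insert_le).trans ?_
    exact (add_le_add h3 (Cardinal.one_le_aleph0.trans hT)).trans
      (Cardinal.add_eq_self hT).le
  have h3 : Order.succ #T ≤ #T := by
    rw [← Cardinal.mk_ord_toType (Order.succ #T), ← Cardinal.mk_univ, h1]
    refine (Cardinal.mk_iUnion_le _).trans ?_
    calc #T * _ ≤ #T * #T := mul_le_mul' le_rfl (ciSup_le' h2)
      _ = #T := Cardinal.mul_eq_self hT
  exact absurd h3 (not_le.2 (Order.lt_succ _))

/-- **The forcing theorem.** For every infinite set `T` there is a ccc notion of forcing which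
forces `PhiFor K T` for a set `K` of size `ℵ₁`. -/
theorem exists_forcing (T : Type) [Infinite T] :
    ∃ (P : Type) (_ : Preorder P), Nonempty P ∧
      (∀ A : Set P, (∀ p ∈ A, ∀ q ∈ A, p ≠ q → ¬ ∃ r, r ≤ p ∧ r ≤ q) → A.Countable) ∧
      ∀ p : P, p ∈ PhiHolds P (Cardinal.aleph 1 : Cardinal.{0}).ord.ToType T := by
  let K : Type := (Cardinal.aleph 1 : Cardinal.{0}).ord.ToType
  let Ω : Type := (Order.succ #T).ord.ToType
  let Λ : Type := Set (Ω ⊕ K)
  have hT : ℵ₀ ≤ #T := Cardinal.aleph0_le_mk T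
  have hK : #K = Cardinal.aleph 1 := Cardinal.mk_ord_toType _
  have hΩ : #Ω = Order.succ #T := Cardinal.mk_ord_toType _
  have hΛ : #Λ = 2 ^ #(Ω ⊕ K) := Cardinal.mk_set
  have hTΩ : #T < #Ω := by rw [hΩ]; exact Order.lt_succ _
  have hΩS : #Ω ≤ #(Ω ⊕ K) := by
    rw [Cardinal.mk_sum, Cardinal.lift_id, Cardinal.lift_id]
    exact le_self_add
  have hKS : #K ≤ #(Ω ⊕ K) := by
    rw [Cardinal.mk_sum, Cardinal.lift_id, Cardinal.lift_id]
    exact le_add_self
  have hS : ℵ₀ ≤ #(Ω ⊕ K) := hT.trans (hTΩ.le.trans hΩS)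
  have hSΛ : #(Ω ⊕ K) < #Λ := by
    rw [hΛ]; exact Cardinal.cantor _
  have hc : ℵ₀ ≤ #Λ := hS.trans hSΛ.le
  have hc2 : #Λ ^ ℵ₀ = #Λ := by
    rw [hΛ, ← Cardinal.power_mul, Cardinal.mul_eq_left hS hS Cardinal.aleph0_ne_zero]
  have hunc : Uncountable K := by
    rw [← Cardinal.aleph0_lt_mk_iff, hK]
    exact Cardinal.aleph0_lt_aleph_one
  have hI : #(Ix K Ω) ≤ #Λ := mk_Ix hc (hKS.trans hSΛ.le) (hΩS.trans hSΛ.le)
  have hN : #(NmI K Ω Λ) ≤ #Λ := mk_Nm hc hc2 le_rfl hI
  have hne : Nonempty Ω := by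
    rw [← Cardinal.mk_ne_zero_iff]
    exact ((Cardinal.zero_le _).trans_lt hTΩ).ne'
  obtain ⟨code⟩ := hN
  obtain ⟨h1, h2⟩ := forcing_of_card (K := K) (Ω := Ω) (Λ := Λ) (T := T) bdd_succ code
    code.injective
  refine ⟨PP (GB (code : NmI K Ω Λ → Λ)), inferInstance,
    ⟨(Cond.one : Cond Λ (Ix.rs (K := K) (Ω := Ω)))⟩, ?_, h2⟩
  intro A hA
  by_contra hcon
  obtain ⟨p, hp, q, hq, hne, r, h1, h2⟩ := h1 A hcon
  exact hA p hp q hq hne ⟨r, h1, h2⟩

end Pool.Agent.H631.RO
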