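import Pool.Agent.H631.RO.Amalg
import Pool.Graph.R_seed8.Helper126.Fact

/-!
# Uncountable families of prepared conditions, and the countable chain condition
-/

set_option autoImplicit false
set_option linter.unusedSectionVars false

namespace Pool.Agent.H631.RO

open Classical

variable {M I W : Type} {rs : I → Prop} [LinearOrder W] [WellFoundedLT W] {Γ : Par M W rs}

theorem uncountable_fiber {α β : Type} [Countable β] {A : Set α} (hA : ¬ A.Countable)
    (g : α → β) : ∃ b, ¬ {a ∈ A | g a = b}.Countable := by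
  by_contra hcon
  push Not at hcon
  apply hA
  refine (Set.countable_iUnion hcon).mono fun a ha => ?_
  exact Set.mem_iUnion.2 ⟨g a, ha, rfl⟩

/-- the stem with a new element `t` -/
def rst (t : ℕ) (s : List (Finset ℕ)) : List (Finset ℕ) :=
  s ++ (List.replicate (t - s.length) ∅ ++ [{0}])

theorem rst_length {t : ℕ} {s : List (Finset ℕ)} (h : s.length ≤ t) : (rst t s).length = t + 1 := by
  simp only [rst, List.length_append, List.length_replicate, List.length_cons, List.length_nil]
  omega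

theorem rst_getD_lt {t : ℕ} {s : List (Finset ℕ)} {i : ℕ} (h : i < s.length) :
    (rst t s).getD i ∅ = s.getD i ∅ := List.getD_append _ _ _ _ h

theorem rst_getD_mid {t : ℕ} {s : List (Finset ℕ)} {i : ℕ} (h : s.length ≤ i) (h' : i < t) :
    (rst t s).getD i ∅ = ∅ := by
  rw [rst, List.getD_append_right _ _ _ _ h, List.getD_append _ _ _ _ (by
    rw [List.length_replicate]; omega), List.getD_eq_getElem _ _ (by
    rw [List.length_replicate]; omega)]
  simp

theorem rst_getD_eq {t : ℕ} {s : List (Finset ℕ)} (h : s.length ≤ t) :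
    (rst t s).getD t ∅ = {0} := by
  rw [rst, List.getD_append_right _ _ _ _ h, List.getD_append_right _ _ _ _ (by
    rw [List.length_replicate])]
  simp

/-- a new element `t` is added at all the sparse coordinates in the support of `p` and in `E` -/
noncomputable def raise {tw : I → Prop} (hdis : ∀ j, tw j → ¬ rs j) (E : Finset I) (t : ℕ)
    (p : Cond M rs) : Cond M rs :=
  ⟨fun l => if tw l ∧ (p l ≠ CV.top ∨ l ∈ E) then ⟨rst t (p l).stem, (p l).pr⟩ else p l,
    (p.2.1.union (Finset.finite_toSet E)).subset (by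
      intro l hl
      by_cases h : p l = CV.top
      · by_cases hE : l ∈ E
        · exact Or.inr hE
        · exfalso
          refine hl ?_
          show (if _ then _ else _) = _
          rw [if_neg (by
            rintro ⟨_, h1 | h1⟩
            · exact h1 h
            · exact hE h1)]
          exact h
      · exact Or.inl h), fun l hr => by
    show Legit (if _ then _ else _)
    rw [if_neg fun h => hdis l h.1 hr]
    exact p.legit hr⟩

theorem raise_pos {tw : I → Prop} (hdis : ∀ j, tw j → ¬ rs j) {E : Finset I} {t : ℕ}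
    {p : Cond M rs} {l : I} (h : tw l) (h' : p l ≠ CV.top ∨ l ∈ E) :
    raise hdis E t p l = ⟨rst t (p l).stem, (p l).pr⟩ := if_pos ⟨h, h'⟩

theorem raise_neg {tw : I → Prop} (hdis : ∀ j, tw j → ¬ rs j) {E : Finset I} {t : ℕ}
    {p : Cond M rs} {l : I} (h : ¬ (tw l ∧ (p l ≠ CV.top ∨ l ∈ E))) :
    raise hdis E t p l = p l := if_neg h

/-- the requirements at the sparse coordinates are decided on the stems, with small values -/
def BPrep (Γ : Par M W rs) (V : ℕ) (p : Cond M rs) : Prop :=
  ∀ j, ∀ k ∈ (p j).pr, ∀ x, Γ.req j k = some (x, none) →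
    ∀ i < (p j).stem.length, ∃ v, v ≤ V ∧ Val (le Γ (below Γ (Γ.rk j))) p x i v

theorem exists_bprep {p : Cond M rs} (hp : Prepared Γ Set.univ p) : ∃ V, BPrep Γ V p := by
  obtain ⟨N, hN⟩ : ∃ N : ℕ, ∀ j ∈ p.supp, (p j).stem.length ≤ N :=
    ⟨p.supp.sup fun j => (p j).stem.length, fun j hj =>
      Finset.le_sup (f := fun j => (p j).stem.length) hj⟩
  have h1 : ∀ j k i, ∃ v, k ∈ (p j).pr → i < (p j).stem.length → ∀ x,
      Γ.req j k = some (x, none) → Val (le Γ (below Γ (Γ.rk j))) p x i v := by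
    intro j k i
    by_cases h : k ∈ (p j).pr ∧ i < (p j).stem.length ∧ ∃ x, Γ.req j k = some (x, none)
    · obtain ⟨hk, hi, x, hx⟩ := h
      obtain ⟨v, hv⟩ := hp j (Set.mem_univ _) k hk x hx i hi
      refine ⟨v, fun _ _ x' hx' => ?_⟩
      rw [hx] at hx'
      rw [← (Prod.mk.inj (Option.some_injective _ hx')).1]
      exact hv
    · exact ⟨0, fun h1 h2 x hx => absurd ⟨h1, h2, x, hx⟩ h⟩
  choose v hv using h1
  refine ⟨(p.supp ×ˢ (p.supp.biUnion fun j => (p j).pr) ×ˢ Finset.range N).sup
    fun z => v z.1 z.2.1 z.2.2, fun j k hk x hx i hi => ⟨v j k i, ?_, hv j k i hk hi x hx⟩⟩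
  have hjs := Cond.top_of_pr hk
  exact Finset.le_sup (f := fun z : I × M × ℕ => v z.1 z.2.1 z.2.2) (b := (j, k, i))
    (Finset.mem_product.2 ⟨hjs, Finset.mem_product.2
      ⟨Finset.mem_biUnion.2 ⟨j, hjs, hk⟩, Finset.mem_range.2 (hi.trans_le (hN j hjs))⟩⟩)

theorem raise_le {tw : I → Prop} (hG : Good Γ tw) (E : Finset I) {t : ℕ} {p : Cond M rs}
    (hlen : ∀ l, (p l).stem.length ≤ t) (hp : BPrep Γ t p) :
    le Γ Set.univ (raise hG.dis E t p) p := by
  have key : ∀ j, ext Γ j (raise hG.dis E t p) p := by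
    intro j
    induction j using (rk_wf Γ).induction with
    | _ j ih =>
    have hbel : le Γ (below Γ (Γ.rk j)) (raise hG.dis E t p) p := fun i hi => ih i hi
    by_cases h : tw j ∧ (p j ≠ CV.top ∨ j ∈ E)
    swap
    · exact ext_of_eq (raise_neg hG.dis h)
    by_cases htop : p j = CV.top
    · exact ext_top htop
    rw [ext_iff, raise_pos hG.dis h.1 h.2]
    refine ⟨List.prefix_append _ _, Finset.Subset.refl _, ?_, ?_⟩
    · intro k _ x c hx
      exact absurd (hG.loc j k x c hx).1 (hG.dis j h.1)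
    · intro k hk x hx i hi hi' hne i1 hi1 hne1 t' ht' n hn
      have h1 : i = t := by
        by_contra hcon
        have h2 : i < t := by
          have : i < (rst t (p j).stem).length := hi'
          rw [rst_length (hlen j)] at this
          omega
        have hne' : ((rst t (p j).stem).getD i ∅).Nonempty := hne
        rw [rst_getD_mid hi h2] at hne'
        exact absurd hne' Finset.not_nonempty_empty
      subst h1
      have h2 : i1 < (p j).stem.length := by
        by_contra hcon
        have hne' : ((rst i (p j).stem).getD i1 ∅).Nonempty := hne1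
        rw [rst_getD_mid (not_lt.1 hcon) hi1] at hne'
        exact absurd hne' Finset.not_nonempty_empty
      obtain ⟨v, hv, hv'⟩ := hp j k hk x hx i1 h2
      have h3 := hv'.mono (low_below _) (le_trans' (low_below _) ht' hbel)
      rw [hn.unique h3]
      exact hv
  exact fun j _ => key j

/-- Uncountable families of conditions. -/
theorem fan {tw : I → Prop} (hG : Good Γ tw) {α : Type} {A : Set α} (hA : ¬ A.Countable)
    (p : α → Cond M rs) (hp : ∀ a ∈ A, Prepared Γ Set.univ (p a)) :
    ∃ (A' : Set α) (R E : Finset I) (m L : ℕ), A' ⊆ A ∧ ¬ A'.Countable ∧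
      (∀ a ∈ A', ∀ l, (p a l).stem.length ≤ L) ∧
      (∀ a ∈ A', ∀ b ∈ A', a ≠ b → ∀ l, p a l ≠ CV.top → p b l ≠ CV.top → l ∈ R) ∧
      ∀ t, L ≤ t → (∀ a ∈ A', le Γ Set.univ (raise hG.dis E t (p a)) (p a)) ∧
        ∀ (A0 : Finset α) (N : ℕ), (∀ a ∈ A0, a ∈ A') → N ≤ hf t + 1 →
          A0.card = Mf t ^ m * N → ∀ p' : α → Cond M rs,
          (∀ a ∈ A0, ∀ l, p' a l = raise hG.dis E t (p a) l ∨
            (l ∉ R ∧ p a l ≠ CV.top ∧ ¬ rs l ∧ ¬ tw l)) →
          ∃ A1 ⊆ A0, N ≤ A1.card ∧ ∃ P, ∀ a ∈ A1, le Γ Set.univ P (p' a) := by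
  choose! V hV using fun a (ha : a ∈ A) => exists_bprep (hp a ha)
  obtain ⟨A1, R, hA1A, hA1, hR1, hd1⟩ := Helper126.delta_system (fun a => (p a).supp) A hA
  obtain ⟨⟨V0, L0⟩, hA15⟩ := uncountable_fiber hA1 fun a =>
    (V a, (p a).supp.sup fun l => (p a l).stem.length)
  obtain ⟨st, hA2⟩ := uncountable_fiber hA15 (fun a => fun j : R =>
    ((p a j.1).stem, (p a j.1).pr.card))
  obtain ⟨A2, hA2def⟩ : ∃ A2 : Set α, A2 = {a ∈ {a ∈ A1 |
    (V a, (p a).supp.sup fun l => (p a l).stem.length) = (V0, L0)} |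
      (fun j : R => ((p a j.1).stem, (p a j.1).pr.card)) = st} := ⟨_, rfl⟩
  rw [← hA2def] at hA2
  have hA21 : ∀ a ∈ A2, a ∈ A1 := fun a ha => by
    rw [hA2def] at ha
    exact ha.1.1
  have hA2V : ∀ a ∈ A2, V a = V0 := fun a ha => by
    rw [hA2def] at ha
    exact (Prod.mk.inj ha.1.2).1
  have hA2L : ∀ a ∈ A2, ∀ l, (p a l).stem.length ≤ L0 := fun a ha l => by
    rw [hA2def] at ha
    rw [← (Prod.mk.inj ha.1.2).2]
    by_cases h : l ∈ (p a).supp
    · exact Finset.le_sup (f := fun l => (p a l).stem.length) h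
    · rw [Cond.mem_supp, not_not] at h
      rw [h]
      exact Nat.zero_le _
  have hstem : ∀ a ∈ A2, ∀ b ∈ A2, ∀ j ∈ R, (p a j).stem = (p b j).stem ∧
      (p a j).pr.card = (p b j).pr.card := by
    intro a ha b hb j hj
    rw [hA2def] at ha hb
    exact Prod.mk.inj ((congrFun ha.2 ⟨j, hj⟩).trans (congrFun hb.2 ⟨j, hj⟩).symm)
  have hdsupp : ∀ a ∈ A2, ∀ b ∈ A2, ∀ i, i ∉ R → p a i ≠ CV.top → p b i ≠ CV.top → a = b := by
    intro a ha b hb i hi h1 h2
    by_contra hab
    exact hi (hd1 a (hA21 a ha) b (hA21 b hb) hab i (Cond.mem_supp.2 h1) (Cond.mem_supp.2 h2))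
  obtain ⟨a0, ha0⟩ : A2.Nonempty := by
    rw [Set.nonempty_iff_ne_empty]
    rintro rfl
    exact hA2 Set.countable_empty
  -- the sparse coordinates which are used by the root
  let E : Finset I := R.biUnion fun j =>
    if h : ∃ c k x, Γ.req j k = some (x, some c) then {h.choose} else ∅
  have hE1 : ∀ j ∈ R, ∀ k x c, Γ.req j k = some (x, some c) → c ∈ E := by
    intro j hj k x c hx
    have h : ∃ c k x, Γ.req j k = some (x, some c) := ⟨c, k, x, hx⟩
    refine Finset.mem_biUnion.2 ⟨j, hj, ?_⟩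
    rw [dif_pos h, Finset.mem_singleton]
    obtain ⟨k', x', h'⟩ := h.choose_spec
    exact hG.uni j k k' x x' c _ hx h'
  have hE2 : ∀ c ∈ E, tw c := by
    intro c hc
    obtain ⟨j, _, hc⟩ := Finset.mem_biUnion.1 hc
    split_ifs at hc with h
    · rw [Finset.mem_singleton] at hc
      obtain ⟨k', x', h'⟩ := h.choose_spec
      rw [hc]
      exact (hG.loc _ _ _ _ h').2.1
    · exact absurd hc (Finset.notMem_empty c)
  let B : Set α := ⋃ c ∈ E, {a ∈ A2 | c ∉ R ∧ p a c ≠ CV.top}
  have hB : B.Finite := by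
    refine Set.Finite.biUnion (Finset.finite_toSet _) fun i _ => Set.Subsingleton.finite ?_
    rintro a ⟨ha, h1, h2⟩ b ⟨hb, _, h4⟩
    exact hdsupp a ha b hb i h1 h2 h4
  obtain ⟨C, hC⟩ : ∃ C : ℕ, ∀ j ∈ R, (p a0 j).pr.card ≤ C :=
    ⟨R.sup fun j => (p a0 j).pr.card, fun j hj =>
      Finset.le_sup (f := fun j => (p a0 j).pr.card) hj⟩
  obtain ⟨L1, hL1⟩ := exists_room (R.filter rs).card C
  refine ⟨A2 \ B, R, E, (R.filter rs).card, max (max V0 L0) L1,
    fun a ha => hA1A (hA21 a ha.1), ?_, fun a ha l => (hA2L a ha.1 l).trans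
      ((le_max_right _ _).trans (le_max_left _ _)), ?_, fun t ht => ⟨fun a ha => ?_, ?_⟩⟩
  · intro hc
    apply hA2
    refine (hc.union hB.countable).mono fun a ha => ?_
    by_cases hb : a ∈ B
    · exact Or.inr hb
    · exact Or.inl ⟨ha, hb⟩
  · intro a ha b hb hab l h1 h2
    by_contra hcon
    exact hab (hdsupp a ha.1 b hb.1 l hcon h1 h2)
  · refine raise_le hG E (fun l => (hA2L a ha.1 l).trans
      (((le_max_right _ _).trans (le_max_left _ _)).trans ht)) ?_
    intro j k hk x hx i hi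
    obtain ⟨v, hv, hv'⟩ := hV a (hA1A (hA21 a ha.1)) j k hk x hx i hi
    rw [hA2V a ha.1] at hv
    exact ⟨v, hv.trans (((le_max_left _ _).trans (le_max_left _ _)).trans ht), hv'⟩
  · intro A0 N hA0 hN hcard p' hp'
    have hLt : L0 ≤ t := ((le_max_right _ _).trans (le_max_left _ _)).trans ht
    have hRne : ∀ a ∈ A2, ∀ l ∈ R, p a l ≠ CV.top := fun a ha l hl =>
      Cond.mem_supp.1 (hR1 a (hA21 a ha) hl)
    have hpR : ∀ a ∈ A0, ∀ l ∈ R, p' a l = raise hG.dis E t (p a) l := by
      intro a ha l hl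
      rcases hp' a ha l with h | h
      · exact h
      · exact absurd hl h.1
    have hptw : ∀ a ∈ A0, ∀ l, tw l → p' a l = raise hG.dis E t (p a) l := by
      intro a ha l hl
      rcases hp' a ha l with h | h
      · exact h
      · exact absurd hl h.2.2.2
    have hprs : ∀ a ∈ A0, ∀ l, rs l → p' a l = p a l := by
      intro a ha l hl
      rcases hp' a ha l with h | h
      · rw [h, raise_neg hG.dis fun h => hG.dis l h.1 hl]
      · exact absurd hl h.2.2.1
    have hne : ∀ a ∈ A0, ∀ l, p' a l ≠ CV.top → p a l ≠ CV.top ∨ (tw l ∧ l ∈ E) := by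
      intro a ha l hl
      by_cases h1 : p a l = CV.top
      swap
      · exact Or.inl h1
      right
      rcases hp' a ha l with h | h
      · by_contra hcon
        rw [h, raise_neg hG.dis (by
          rintro ⟨h2, h3 | h3⟩
          · exact h3 h1
          · exact hcon ⟨h2, h3⟩)] at hl
        exact hl h1
      · exact absurd h1 h.2.1
    obtain ⟨A1', h1, h2, h3⟩ := amalgN hG p' t C N (R.filter rs).card (R.filter rs) A0 ∅ Cond.one
      rfl (fun j hj => absurd hj (Set.notMem_empty j))
      (fun j hj => ⟨Set.notMem_empty j, (Finset.mem_filter.1 hj).2⟩)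
      (fun a _ j hj => absurd hj (Set.notMem_empty j))
      (by
        intro l _ a ha b hb hab hal hbl
        have ha' := hA0 a ha
        have hb' := hA0 b hb
        by_cases hlR : l ∈ R
        · rw [hpR a ha l hlR, hpR b hb l hlR]
          refine ⟨?_, fun hr => Finset.mem_filter.2 ⟨hlR, hr⟩⟩
          have hna := hRne a ha'.1 l hlR
          have hnb := hRne b hb'.1 l hlR
          by_cases htw : tw l
          · rw [raise_pos hG.dis htw (Or.inl hna), raise_pos hG.dis htw (Or.inl hnb)]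
            show rst t _ = rst t _
            rw [(hstem a ha'.1 b hb'.1 l hlR).1]
          · rw [raise_neg hG.dis fun h => htw h.1, raise_neg hG.dis fun h => htw h.1]
            exact (hstem a ha'.1 b hb'.1 l hlR).1
        have hex : ∀ a ∈ A2 \ B, l ∈ E → p a l = CV.top := by
          intro a ha hl
          by_contra hcon
          refine ha.2 ?_
          simp only [B, Set.mem_iUnion]
          exact ⟨l, hl, ha.1, hlR, hcon⟩
        rcases hne a ha l hal with h1 | h1 <;> rcases hne b hb l hbl with h2 | h2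
        · exact absurd (hdsupp a ha'.1 b hb'.1 l hlR h1 h2) hab
        · exact absurd (hex a ha' h2.2) h1
        · exact absurd (hex b hb' h1.2) h2
        · refine ⟨?_, fun hr => absurd hr (hG.dis l h1.1)⟩
          rw [hptw a ha l h1.1, hptw b hb l h1.1, raise_pos hG.dis h1.1 (Or.inr h1.2),
            raise_pos hG.dis h1.1 (Or.inr h1.2), hex a ha' h1.2, hex b hb' h1.2])
      (fun j hj a ha b hb => by
        obtain ⟨hj1, hj2⟩ := Finset.mem_filter.1 hj
        rw [hprs a ha j hj2, hprs b hb j hj2]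
        exact (hstem a (hA0 a ha).1 b (hA0 b hb).1 j hj1).1)
      (fun j hj a ha => by
        obtain ⟨hj1, hj2⟩ := Finset.mem_filter.1 hj
        rw [hprs a ha j hj2]
        refine ⟨(hA2L a (hA0 a ha).1 j).trans hLt, ?_⟩
        rw [(hstem a (hA0 a ha).1 a0 ha0 j hj1).2]
        exact hC j hj1)
      (fun j hj a ha k hk x c hx => by
        obtain ⟨hj1, hj2⟩ := Finset.mem_filter.1 hj
        have hcE := hE1 j hj1 k x c hx
        rw [hptw a ha c (hE2 c hcE), raise_pos hG.dis (hE2 c hcE) (Or.inr hcE)]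
        have h4 := (hA2L a (hA0 a ha).1 c).trans hLt
        refine ⟨?_, ?_⟩
        · show t < (rst t _).length
          rw [rst_length h4]
          exact Nat.lt_succ_self t
        · show ((rst t _).getD t ∅).Nonempty
          rw [rst_getD_eq h4]
          exact Finset.singleton_nonempty 0)
      (by
        rw [hcard]
        exact hL1 t ((le_max_right _ _).trans ht) N hN)
      hcard.ge
    exact ⟨A1', h1, h2, h3⟩

theorem exists_finset {α : Type} {A : Set α} (hA : ¬ A.Countable) (n : ℕ) :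
    ∃ A0 : Finset α, (∀ a ∈ A0, a ∈ A) ∧ A0.card = n := by
  have h : A.Infinite := fun h => hA h.countable
  obtain ⟨A0, h1, h2⟩ := h.exists_subset_card_eq n
  exact ⟨A0, fun a ha => h1 ha, h2⟩

theorem ccc {tw : I → Prop} (hG : Good Γ tw) : CCC Γ := by
  intro A hA
  choose p' hp' hprep using fun p : Cond M rs => prep (Γ := Γ) p
  obtain ⟨A', R, E, m, L, hA'A, hA', -, -, h⟩ := fan hG hA p' fun a _ => hprep a
  obtain ⟨h1, h2⟩ := h L le_rfl
  obtain ⟨A0, hA0, hcard⟩ := exists_finset hA' (Mf L ^ m * 2)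
  obtain ⟨A1, hA1, hc, P, hP⟩ := h2 A0 2 hA0 (by
    have : 1 ≤ hf L := Nat.one_le_two_pow
    omega) hcard (fun a => raise hG.dis E L (p' a)) (fun a _ l => Or.inl rfl)
  obtain ⟨a, ha, b, hb, hab⟩ := Finset.one_lt_card.1 (lt_of_lt_of_le one_lt_two hc)
  have key : ∀ a ∈ A1, le Γ Set.univ P a := fun a ha =>
    le_trans' low_univ (hP a ha) (le_trans' low_univ (h1 a (hA0 a (hA1 ha))) (hp' a))
  exact ⟨a, hA'A (hA0 a (hA1 ha)), b, hA'A (hA0 b (hA1 hb)), hab, P, key a ha, key b hb⟩

end Pool.Agent.H631.RO
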