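import Pool.Agent.H631.RO.Stm
import Pool.Graph.R_seed8.H20R3.Yor.Bart

/-!
# The additivity of the null ideal is at most the size of `K`
-/

set_option autoImplicit false

namespace Pool.Agent.H631.RO

open MeasureTheory Set Cardinal
open scoped ENNReal Cardinal
open Pool.Agent.H20R3.Yor

/-- the additivity of the ideal of the Lebesgue null sets of real numbers -/
noncomputable def addN : Cardinal.{0} :=
  sInf {κ | ∃ F : Set (Set ℝ), (∀ A ∈ F, volume A = 0) ∧ volume (⋃₀ F) ≠ 0 ∧ #F = κ}

/-- the digits of a point of the Cantor space -/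
def dg (y : Cantor) : ℕ → Fin 2 := fun n => if y n then 1 else 0

/-- the real number with the given binary digits -/
noncomputable def rl (y : Cantor) : ℝ := Real.ofDigits (dg y)

theorem continuous_dg : Continuous dg := by
  unfold dg
  refine continuous_pi fun n => ?_
  exact (continuous_of_discreteTopology (f := fun b : Bool => if b then (1 : Fin 2) else 0)).comp
    (continuous_apply n)

theorem continuous_rl : Continuous rl := Real.continuous_ofDigits.comp continuous_dg

theorem exists_rl {r : ℝ} (hr : r ∈ Icc (0 : ℝ) 1) : ∃ y, rl y = r := by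
  obtain ⟨d, -, hd⟩ := Real.ofDigits_SurjOn (b := 2) (by norm_num) hr
  refine ⟨fun n => decide (d n = 1), ?_⟩
  rw [← hd, rl]
  congr 1
  funext n
  unfold dg
  have : d n = 0 ∨ d n = 1 := by
    have := (d n).2
    rcases h : (d n) with ⟨v, hv⟩
    interval_cases v
    · left; rfl
    · right; rfl
  rcases this with h | h <;> simp [h]

theorem rl_dist {x y : Cantor} {n : ℕ} (h : ∀ i < n, x i = y i) :
    |rl x - rl y| ≤ ((2 : ℝ) ^ n)⁻¹ := by
  have := Real.abs_ofDigits_sub_ofDigits_le (b := 2) (x := dg x) (y := dg y) (n := n)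
    (fun i hi => by unfold dg; rw [h i hi])
  exact_mod_cast this

theorem vol_image_Cyl (s : List Bool) : volume (rl '' Cyl s) ≤ (2⁻¹ : ℝ≥0∞) ^ s.length := by
  refine (Real.volume_le_diam _).trans ?_
  refine Metric.ediam_le ?_
  rintro _ ⟨x, hx, rfl⟩ _ ⟨y, hy, rfl⟩
  have h1 : |rl x - rl y| ≤ ((2 : ℝ) ^ s.length)⁻¹ := by
    refine rl_dist fun i hi => ?_
    rw [← hx i hi, ← hy i hi]
  rw [edist_dist, Real.dist_eq]
  refine (ENNReal.ofReal_le_ofReal h1).trans ?_
  rw [ENNReal.ofReal_inv_of_pos (by positivity), ENNReal.ofReal_pow (by norm_num),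
    ENNReal.inv_pow]
  simp

theorem vol_image_open {U : Set Cantor} (hU : IsOpen U) : volume (rl '' U) ≤ coin U := by
  classical
  refine le_trans ?_ (tsum_minStr_le U)
  have h1 : rl '' U ⊆ ⋃ s : List Bool, (if s ∈ minStr U then rl '' Cyl s else ∅) := by
    rintro _ ⟨x, hx, rfl⟩
    obtain ⟨s, hs, hxs⟩ := exists_minStr hU hx
    refine mem_iUnion.2 ⟨s, ?_⟩
    rw [if_pos hs]
    exact mem_image_of_mem _ hxs
  refine (measure_mono h1).trans ((measure_iUnion_le _).trans (ENNReal.tsum_le_tsum fun s => ?_))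
  split_ifs with h
  · exact vol_image_Cyl s
  · simp

theorem vol_image (Z : Set Cantor) : volume (rl '' Z) ≤ coin Z := by
  rw [Z.measure_eq_iInf_isOpen]
  refine le_iInf fun U => le_iInf fun hZU => le_iInf fun hU => ?_
  exact (measure_mono (image_mono hZU)).trans (vol_image_open hU)

theorem coin_preimage {A : Set ℝ} (hA : volume A = 0) : coin (rl ⁻¹' A) = 0 := by
  set B := toMeasurable volume A with hB
  have hBm : MeasurableSet B := measurableSet_toMeasurable _ _
  have hB0 : volume B = 0 := by rw [hB, measure_toMeasurable, hA]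
  have h1 : coin (rl ⁻¹' B) = 0 := by
    have h2 : (1 : ℝ≥0∞) ≤ coin (rl ⁻¹' Bᶜ) := by
      refine le_trans ?_ (vol_image _)
      have h3 : Icc (0 : ℝ) 1 \ B ⊆ rl '' (rl ⁻¹' Bᶜ) := by
        rintro r ⟨hr, hrB⟩
        obtain ⟨y, rfl⟩ := exists_rl hr
        exact ⟨y, hrB, rfl⟩
      refine le_trans ?_ (measure_mono h3)
      rw [measure_sdiff_null hB0]
      simp
    have h4 : coin (rl ⁻¹' Bᶜ) = 1 := le_antisymm prob_le_one h2
    have h5 : MeasurableSet (rl ⁻¹' B) := continuous_rl.measurable hBm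
    rw [preimage_compl, prob_compl_eq_one_iff h5] at h4
    exact h4
  exact measure_mono_null (preimage_mono (subset_toMeasurable _ _)) h1

theorem addN_le {K : Type} (h : NotLoc K) : addN ≤ #K := by
  obtain ⟨c, hc⟩ := h
  have h1 : ∀ A ∈ range (fun k => rl '' (nullG (c k))), volume A = 0 := by
    rintro _ ⟨k, rfl⟩
    exact le_antisymm ((vol_image _).trans (nullG_null _).le) bot_le
  have h2 : volume (⋃₀ (range (fun k => rl '' (nullG (c k))))) ≠ 0 := by
    intro h0
    obtain ⟨φ, hφ, hφ2⟩ := bart (coin_preimage h0)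
    obtain ⟨k, hk⟩ := hc (fun n v => v ∈ φ n) (fun n t ht => by
      by_contra hcon
      push Not at hcon
      exact absurd (Finset.card_le_card (show t ⊆ φ n from hcon)) (by
        have := hφ n
        unfold hf at ht
        omega))
    obtain ⟨n1, hn1⟩ := hφ2 (c k) (by
      intro y hy
      exact mem_sUnion.2 ⟨_, mem_range_self k, mem_image_of_mem _ hy⟩)
    obtain ⟨n, hn, hn2⟩ := hk n1
    exact hn2 (hn1 n hn)
  have h3 : addN ≤ #(range (fun k => rl '' (nullG (c k)))) := by
    unfold addN
    exact csInf_le' ⟨_, h1, h2, rfl⟩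
  exact h3.trans mk_range_le

end Pool.Agent.H631.RO
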