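import Pool.Agent.H631.RO.Stm

/-!
# The additivity of the Rothberger property is larger than the size of `T`
-/

set_option autoImplicit false

namespace Pool.Agent.H631.RO

open MeasureTheory Set Cardinal
open scoped ENNReal Cardinal

/-- the Rothberger property `S₁(O,O)` of a topological space: for every sequence of (nonempty)
open covers one can choose one member of each such that the chosen sets cover the space. -/
def Rothberger (X : Type) [TopologicalSpace X] : Prop :=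
  ∀ 𝒰 : ℕ → Set (Set X),
    (∀ n, (𝒰 n).Nonempty ∧ (∀ V ∈ 𝒰 n, IsOpen V) ∧ ⋃₀ (𝒰 n) = Set.univ) →
    ∃ V : ℕ → Set X, (∀ n, V n ∈ 𝒰 n) ∧ (⋃ n, V n) = Set.univ

/-- the additivity number of the Rothberger property of sets of real numbers -/
noncomputable def addRoth : Cardinal.{0} :=
  sInf {κ | ∃ F : Set (Set ℝ), (∀ X ∈ F, Rothberger ↥X) ∧ ¬ Rothberger ↥(⋃₀ F) ∧ #F = κ}

/-- the Rothberger property, in terms of sequences of open sets of reals -/
def RothS (X : Set ℝ) : Prop :=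
  ∀ U : ℕ → ℕ → Set ℝ, (∀ n i, IsOpen (U n i)) → (∀ n, X ⊆ ⋃ i, U n i) →
    ∃ h : ℕ → ℕ, X ⊆ ⋃ n, U n (h n)

theorem rothS_of {X : Set ℝ} (h : Rothberger ↥X) : RothS X := by
  intro U hU hc
  obtain ⟨V, hV1, hV2⟩ := h (fun n => range fun i => ((↑) : X → ℝ) ⁻¹' U n i) (fun n => by
    refine ⟨⟨_, mem_range_self 0⟩, ?_, ?_⟩
    · rintro _ ⟨i, rfl⟩
      exact (hU n i).preimage continuous_subtype_val
    · rw [eq_univ_iff_forall]
      rintro ⟨x, hx⟩
      obtain ⟨i, hi⟩ := mem_iUnion.1 (hc n hx)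
      exact mem_sUnion.2 ⟨_, mem_range_self i, hi⟩)
  choose h hh using hV1
  refine ⟨h, fun x hx => ?_⟩
  have h1 : (⟨x, hx⟩ : X) ∈ ⋃ n, V n := hV2 ▸ mem_univ _
  obtain ⟨n, hn⟩ := mem_iUnion.1 h1
  rw [← hh n] at hn
  exact mem_iUnion.2 ⟨n, hn⟩

theorem of_rothS {X : Set ℝ} (h : RothS X) : Rothberger ↥X := by
  intro 𝒰 h𝒰
  have h1 : ∀ n, ∃ e : ℕ → Set X, (∀ i, e i ∈ 𝒰 n) ∧ (⋃ i, e i) = Set.univ := by
    intro n
    obtain ⟨⟨U0, hU0⟩, ho, hu⟩ := h𝒰 n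
    obtain ⟨T, hT, hT2, hT3⟩ := TopologicalSpace.isOpen_sUnion_countable (𝒰 n) ho
    have h2 : (insert U0 T).Countable := hT.insert _
    obtain ⟨e, he⟩ := h2.exists_eq_range ⟨U0, mem_insert _ _⟩
    refine ⟨e, fun i => ?_, ?_⟩
    · have h3 : e i ∈ insert U0 T := he ▸ mem_range_self i
      rcases h3 with h3 | h3
      · rw [h3]; exact hU0
      · exact hT2 h3
    · rw [← sUnion_range, ← he, sUnion_insert, hT3, hu, union_univ]
  choose e he1 he2 using h1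
  have h2 : ∀ n i, ∃ V : Set ℝ, IsOpen V ∧ ((↑) : X → ℝ) ⁻¹' V = e n i := fun n i =>
    isOpen_induced_iff.1 ((h𝒰 n).2.1 _ (he1 n i))
  choose V hV1 hV2 using h2
  obtain ⟨g, hg⟩ := h V hV1 (fun n x hx => by
    have h3 : (⟨x, hx⟩ : X) ∈ ⋃ i, e n i := he2 n ▸ mem_univ _
    obtain ⟨i, hi⟩ := mem_iUnion.1 h3
    rw [← hV2] at hi
    exact mem_iUnion.2 ⟨i, hi⟩)
  refine ⟨fun n => e n (g n), fun n => he1 n _, ?_⟩
  rw [eq_univ_iff_forall]
  rintro ⟨x, hx⟩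
  obtain ⟨n, hn⟩ := mem_iUnion.1 (hg hx)
  refine mem_iUnion.2 ⟨n, ?_⟩
  rw [← hV2]
  exact hn

theorem RothS.io {X : Set ℝ} (hX : RothS X) {U : ℕ → ℕ → Set ℝ} (hU : ∀ n i, IsOpen (U n i))
    (hc : ∀ n, X ⊆ ⋃ i, U n i) (hm : ∀ n, Monotone (U n)) :
    ∃ h : ℕ → ℕ, ∀ x ∈ X, ∀ N, ∃ n, N ≤ n ∧ x ∈ U n (h n) := by
  have h1 : ∀ N, ∃ h : ℕ → ℕ, X ⊆ ⋃ n, U (n + N) (h n) := fun N =>
    hX (fun n => U (n + N)) (fun n => hU (n + N)) (fun n => hc (n + N))
  choose g hg using h1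
  refine ⟨fun a => (Finset.range (a + 1)).sup fun N => g N (a - N), fun x hx N => ?_⟩
  obtain ⟨n, hn⟩ := mem_iUnion.1 (hg N hx)
  refine ⟨n + N, Nat.le_add_left _ _, hm (n + N) ?_ hn⟩
  have h2 := Finset.le_sup (f := fun M => g M (n + N - M)) (b := N)
    (Finset.mem_range.2 (show N < n + N + 1 by omega))
  simpa using h2

/-- a covering lemma -/
theorem RothS.lemA {Y : Set ℝ} (hY : RothS Y) {E : ℕ → ℕ → Set ℝ} (hE : ∀ n c, IsOpen (E n c))
    (hc : ∀ y ∈ Y, ∀ N, ∃ n, N ≤ n ∧ ∃ c, y ∈ E n c) :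
    ∃ g : ℕ → ℕ, ∀ y ∈ Y, ∀ N, ∃ n, N ≤ n ∧ y ∈ E n (g n) := by
  classical
  let D : ℕ → Type := fun m => {F : Finset (ℕ × ℕ) // m + 1 ≤ (F.image Prod.fst).card}
  have hD : ∀ m, ∃ e : ℕ → D m, Function.Surjective e := by
    intro m
    have : Nonempty (D m) := by
      refine ⟨⟨(Finset.range (m + 1)).image fun n => (n, 0), ?_⟩⟩
      rw [Finset.image_image]
      have : (Prod.fst ∘ fun n : ℕ => (n, (0 : ℕ))) = id := rfl
      rw [this, Finset.image_id, Finset.card_range]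
    exact exists_surjective_nat (D m)
  choose e he using hD
  let W : ℕ → ℕ → Set ℝ := fun m i => ⋂ p ∈ (e m i).1, E p.1 p.2
  have hW : ∀ m i, IsOpen (W m i) := fun m i => isOpen_biInter_finset fun p _ => hE _ _
  have hWc : ∀ m, Y ⊆ ⋃ i, W m i := by
    intro m y hy
    have hinf : {n | ∃ c, y ∈ E n c}.Infinite := by
      rw [Set.infinite_iff_exists_gt]
      intro a
      obtain ⟨n, hn, hc⟩ := hc y hy (a + 1)
      exact ⟨n, hc, hn⟩
    obtain ⟨s, hs, hcard⟩ := Set.Infinite.exists_subset_card_eq hinf (m + 1)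
    have h1 : ∀ n, ∃ c, n ∈ s → y ∈ E n c := by
      intro n
      by_cases hn : n ∈ s
      · obtain ⟨c, hc⟩ := hs hn
        exact ⟨c, fun _ => hc⟩
      · exact ⟨0, fun h => absurd h hn⟩
    choose c hc using h1
    obtain ⟨i, hi⟩ := he m ⟨s.image fun n => (n, c n), by
      rw [Finset.image_image]
      have : (Prod.fst ∘ fun n : ℕ => (n, c n)) = id := rfl
      rw [this, Finset.image_id, hcard]⟩
    refine mem_iUnion.2 ⟨i, ?_⟩
    simp only [W, hi]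
    refine mem_iInter₂.2 fun p hp => ?_
    obtain ⟨n, hn, rfl⟩ := Finset.mem_image.1 hp
    exact hc n hn
  have h2 : ∀ N, ∃ q : ℕ → ℕ, Y ⊆ ⋃ k, W (Nat.pair N k) (q k) := fun N =>
    hY (fun k => W (Nat.pair N k)) (fun k => hW _) (fun k => hWc _)
  choose q hq using h2
  let r : ℕ → ℕ := fun m => q m.unpair.1 m.unpair.2
  have hr : ∀ y ∈ Y, ∀ N, ∃ m, N ≤ m ∧ y ∈ W m (r m) := by
    intro y hy N
    obtain ⟨k, hk⟩ := mem_iUnion.1 (hq N hy)
    refine ⟨Nat.pair N k, Nat.left_le_pair _ _, ?_⟩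
    simp only [r, Nat.unpair_pair]
    exact hk
  have hall : ∀ s : Finset ℕ, s.card ≤
      (s.biUnion fun m => ((e m (r m)).1.image Prod.fst)).card := by
    intro s
    rcases s.eq_empty_or_nonempty with rfl | hs
    · simp
    · have h3 : s.card ≤ s.max' hs + 1 := by
        have h4 : s ⊆ Finset.range (s.max' hs + 1) := fun m hm =>
          Finset.mem_range.2 (Nat.lt_succ_of_le (s.le_max' m hm))
        simpa using Finset.card_le_card h4
      refine h3.trans ((e (s.max' hs) (r (s.max' hs))).2.trans (Finset.card_le_card ?_))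
      exact Finset.subset_biUnion_of_mem (fun m => ((e m (r m)).1.image Prod.fst))
        (s.max'_mem hs)
  obtain ⟨f, hf, hf2⟩ := (Finset.all_card_le_biUnion_card_iff_exists_injective _).1 hall
  have h3 : ∀ m, ∃ c, (f m, c) ∈ (e m (r m)).1 := by
    intro m
    obtain ⟨⟨a, b⟩, hp, hp2⟩ := Finset.mem_image.1 (hf2 m)
    refine ⟨b, ?_⟩
    rw [← hp2]
    exact hp
  choose c hc3 using h3
  refine ⟨Function.extend f c 0, fun y hy N => ?_⟩
  have h4 : {m | y ∈ W m (r m)}.Infinite := by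
    rw [Set.infinite_iff_exists_gt]
    intro a
    obtain ⟨m, hm, hm2⟩ := hr y hy (a + 1)
    exact ⟨m, hm2, hm⟩
  obtain ⟨_, ⟨m, hm, rfl⟩, hN⟩ := (h4.image hf.injOn).exists_gt N
  refine ⟨f m, hN.le, ?_⟩
  rw [hf.extend_apply]
  exact mem_iInter₂.1 hm _ (hc3 m)

theorem exists_enum {A : ℕ → Prop} {w : ℕ}
    (h : ∀ t : Finset ℕ, w < t.card → ∃ v ∈ t, ¬ A v) :
    ∃ e : ℕ → ℕ, ∀ v, A v → ∃ j, j < w ∧ e j = v := by
  classical
  have hfin : {v | A v}.Finite := by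
    by_contra hinf
    obtain ⟨s, hs, hcard⟩ := Set.Infinite.exists_subset_card_eq hinf (w + 1)
    obtain ⟨v, hv, hv2⟩ := h s (by omega)
    exact hv2 (hs hv)
  have hcard : hfin.toFinset.card ≤ w := by
    by_contra hcon
    obtain ⟨v, hv, hv2⟩ := h hfin.toFinset (by omega)
    exact hv2 (by simpa using hv)
  refine ⟨fun j => hfin.toFinset.toList.getD j 0, fun v hv => ?_⟩
  have hv2 : v ∈ hfin.toFinset.toList := by
    rw [Finset.mem_toList]; simpa using hv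
  obtain ⟨j, hj, hj2⟩ := List.getElem_of_mem hv2
  refine ⟨j, ?_, ?_⟩
  · rw [Finset.length_toList] at hj
    omega
  · show hfin.toFinset.toList.getD j 0 = v
    rw [List.getD_eq_getElem _ _ hj, hj2]

theorem exists_dec (u w : ℕ) : ∃ dec : ℕ → ℕ → ℕ, ∀ σ : ℕ → ℕ, (∀ j, j < w → σ j < u) →
    ∃ c, c < u ^ w ∧ ∀ j, j < w → dec c j = σ j := by
  classical
  refine ⟨fun c j => if h : c < u ^ w ∧ j < w then
    (finFunctionFinEquiv.symm (⟨c, h.1⟩ : Fin (u ^ w)) ⟨j, h.2⟩ : Fin u) else 0,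
    fun σ hσ => ?_⟩
  let τ : Fin w → Fin u := fun j => ⟨σ j, hσ j j.2⟩
  refine ⟨(finFunctionFinEquiv τ : Fin (u ^ w)), (finFunctionFinEquiv τ).2, fun j hj => ?_⟩
  have h1 : ((finFunctionFinEquiv τ : Fin (u ^ w)) : ℕ) < u ^ w ∧ j < w :=
    ⟨(finFunctionFinEquiv τ).2, hj⟩
  simp only
  rw [dif_pos h1]
  have h2 : (⟨((finFunctionFinEquiv τ : Fin (u ^ w)) : ℕ), h1.1⟩ : Fin (u ^ w)) =
    finFunctionFinEquiv τ := rfl
  rw [h2, Equiv.symm_apply_apply]

/-- unions of families indexed by `T` -/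
theorem rothS_iUnion {T : Type} (hT : SparseCap T) {X : T → Set ℝ} (hX : ∀ s, RothS (X s)) :
    RothS (⋃ s, X s) := by
  classical
  intro U hU hc
  let Q : ℕ → ℕ → Set ℝ := fun a m =>
    ⋂ a' ∈ Finset.range (a + 1), ⋂ j ∈ Finset.range (wf a'),
      ⋃ i ∈ Finset.range m, U (Nat.pair a' j) i
  have hQo : ∀ a m, IsOpen (Q a m) := fun a m =>
    isOpen_biInter_finset fun a' _ => isOpen_biInter_finset fun j _ =>
      isOpen_biUnion fun i _ => hU _ _
  have hQ : ∀ a m x, x ∈ Q a m ↔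
      ∀ a' ≤ a, ∀ j < wf a', ∃ i < m, x ∈ U (Nat.pair a' j) i := by
    intro a m x
    simp only [Q, mem_iInter, Finset.mem_range, mem_iUnion, Nat.lt_succ_iff, exists_prop]
  have hQm : ∀ a a' m m', a' ≤ a → m ≤ m' → Q a m ⊆ Q a' m' := by
    intro a a' m m' ha hm x hx
    rw [hQ] at hx ⊢
    intro b hb j hj
    obtain ⟨i, hi, hi2⟩ := hx b (hb.trans ha) j hj
    exact ⟨i, hi.trans_le hm, hi2⟩
  have hQc : ∀ s, ∀ x ∈ X s, ∀ a, ∃ m, x ∈ Q a m := by
    intro s x hx a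
    have h1 : ∀ k, ∃ i, x ∈ U k i := fun k => mem_iUnion.1 (hc k (mem_iUnion.2 ⟨s, hx⟩))
    choose i hi using h1
    refine ⟨(Finset.range (a + 1)).sup (fun a' => (Finset.range (wf a')).sup
      fun j => i (Nat.pair a' j)) + 1, ?_⟩
    rw [hQ]
    intro a' ha' j hj
    refine ⟨i (Nat.pair a' j), Nat.lt_succ_of_le ?_, hi _⟩
    exact (Finset.le_sup (f := fun j => i (Nat.pair a' j)) (Finset.mem_range.2 hj)).trans
      (Finset.le_sup (f := fun a' => (Finset.range (wf a')).sup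
        fun j => i (Nat.pair a' j)) (Finset.mem_range.2 (Nat.lt_succ_of_le ha')))
  let O : ℕ → ℕ → Set ℝ := fun a m => ⋃ m1, Q a m1 ∩ Q m1 m
  have hOo : ∀ a m, IsOpen (O a m) := fun a m =>
    isOpen_iUnion fun m1 => (hQo _ _).inter (hQo _ _)
  have hOc : ∀ s a, X s ⊆ ⋃ m, O a m := by
    intro s a x hx
    obtain ⟨m1, h1⟩ := hQc s x hx a
    obtain ⟨m, h2⟩ := hQc s x hx m1
    exact mem_iUnion.2 ⟨m, mem_iUnion.2 ⟨m1, h1, h2⟩⟩
  have hOm : ∀ a, Monotone (O a) := by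
    intro a m m' hm x hx
    obtain ⟨m1, h1, h2⟩ := mem_iUnion.1 hx
    exact mem_iUnion.2 ⟨m1, h1, hQm _ _ _ _ le_rfl hm h2⟩
  have h1 : ∀ s, ∃ f : ℕ → ℕ, ∀ x ∈ X s, ∀ N, ∃ n, N ≤ n ∧ x ∈ O n (f n) := fun s =>
    (hX s).io hOo (hOc s) hOm
  choose f hf using h1
  obtain ⟨C, hC1, hC2, hC3⟩ := hT fun s a => max (wf a) ((Finset.range (a + 1)).sup (f s))
  have hnx : ∀ i, ∃ u, i < u ∧ C u ∧ ∀ l, i < l → l < u → ¬ C l := by
    intro i
    have h1 : ∃ u, i < u ∧ C u := by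
      obtain ⟨u, hu, hu2⟩ := hC1 (i + 1)
      exact ⟨u, hu, hu2⟩
    refine ⟨Nat.find h1, (Nat.find_spec h1).1, (Nat.find_spec h1).2, fun l hl hl2 hl3 => ?_⟩
    exact Nat.find_min h1 hl2 ⟨hl, hl3⟩
  choose nx hnx1 hnx2 hnx3 using hnx
  have hmain : ∀ s, ∀ x ∈ X s, ∀ N, ∃ i, N ≤ i ∧ C i ∧ x ∈ Q i (nx i) := by
    intro s x hx N
    obtain ⟨N1, hN1⟩ := hC2 s
    obtain ⟨c0, hc0, hc02⟩ := hC1 (max N N1)
    obtain ⟨a, ha, ha2⟩ := hf s x hx c0
    set i := Nat.findGreatest C a with hi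
    have hCi : C i := Nat.findGreatest_spec ha hc02
    have hci : c0 ≤ i := Nat.le_findGreatest ha hc02
    have hia : i ≤ a := Nat.findGreatest_le a
    have hau : a < nx i := by
      by_contra hcon
      exact Nat.findGreatest_is_greatest (hnx1 i) (not_lt.1 hcon) (hnx2 i)
    obtain ⟨m1, hm1, hm2⟩ := mem_iUnion.1 ha2
    by_cases hm : m1 ≤ nx i
    · exact ⟨i, (le_max_left _ _).trans (hc0.trans hci), hCi, hQm _ _ _ _ hia hm hm1⟩
    · refine ⟨nx i, (le_max_left _ _).trans (hc0.trans (hci.trans (hnx1 i).le)), hnx2 i, ?_⟩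
      refine hQm _ _ _ _ (not_le.1 hm).le ?_ hm2
      have h2 := hN1 (nx i) (nx (nx i)) ((le_max_right _ _).trans
        (hc0.trans (hci.trans ((hnx1 i).le.trans (hnx1 _).le)))) (hnx2 i) (hnx2 _) (hnx1 _)
      refine le_trans ?_ ((le_max_right _ _).trans h2)
      exact Finset.le_sup (f := f s) (Finset.mem_range.2 (by omega))
  have hdec := fun i => exists_dec (nx i) (wf i)
  choose dec hdec using hdec
  let E : ℕ → ℕ → Set ℝ := fun i c => if C i ∧ c < Bf (nx i) then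
    ⋂ j ∈ Finset.range (wf i), U (Nat.pair i j) (dec i c j) else ∅
  have hEo : ∀ i c, IsOpen (E i c) := by
    intro i c
    simp only [E]
    split_ifs
    · exact isOpen_biInter_finset fun j _ => hU _ _
    · exact isOpen_empty
  have hEc : ∀ s, ∀ x ∈ X s, ∀ N, ∃ n, N ≤ n ∧ ∃ c, x ∈ E n c := by
    intro s x hx N
    obtain ⟨N1, hN1⟩ := hC2 s
    obtain ⟨i, hi, hCi, hxi⟩ := hmain s x hx (max N N1)
    rw [hQ] at hxi
    have h2 : ∀ j, ∃ l, j < wf i → l < nx i ∧ x ∈ U (Nat.pair i j) l := by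
      intro j
      by_cases hj : j < wf i
      · obtain ⟨l, hl, hl2⟩ := hxi i le_rfl j hj
        exact ⟨l, fun _ => ⟨hl, hl2⟩⟩
      · exact ⟨0, fun h => absurd h hj⟩
    choose σ hσ using h2
    obtain ⟨c, hc1, hc2⟩ := hdec i σ fun j hj => (hσ j hj).1
    have h3 := hN1 i (nx i) ((le_max_right _ _).trans (hi.trans (hnx1 i).le)) hCi (hnx2 i)
      (hnx1 i)
    have h4 : wf i ≤ nx i := (le_max_left _ _).trans h3
    have h5 : c < Bf (nx i) := hc1.trans_le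
      (Nat.pow_le_pow_right ((Nat.zero_le _).trans_lt (hnx1 i)) h4)
    refine ⟨i, (le_max_left _ _).trans hi, c, ?_⟩
    simp only [E]
    rw [if_pos ⟨hCi, h5⟩]
    refine mem_iInter₂.2 fun j hj => ?_
    rw [hc2 j (Finset.mem_range.1 hj)]
    exact (hσ j (Finset.mem_range.1 hj)).2
  have h2 : ∀ s, ∃ g : ℕ → ℕ, ∀ x ∈ X s, ∀ N, ∃ n, N ≤ n ∧ x ∈ E n (g n) := fun s =>
    (hX s).lemA hEo (hEc s)
  choose g hg using h2
  obtain ⟨S, hS1, hS2⟩ := hC3 g
  have h3 : ∀ i, ∃ e : ℕ → ℕ, ∀ v, S i v → ∃ j, j < wf i ∧ e j = v := fun i =>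
    exists_enum (hS1 i)
  choose e he using h3
  refine ⟨fun k => dec k.unpair.1 (e k.unpair.1 k.unpair.2) k.unpair.2, fun x hx => ?_⟩
  obtain ⟨s, hxs⟩ := mem_iUnion.1 hx
  obtain ⟨N, hN⟩ := hS2 s
  obtain ⟨n, hn, hxn⟩ := hg s x hxs N
  by_cases hcond : C n ∧ g s n < Bf (nx n)
  · simp only [E] at hxn
    rw [if_pos hcond] at hxn
    have h4 := hN n (nx n) hn (hnx1 n) (hnx2 n) (hnx3 n) hcond.2
    obtain ⟨j, hj, hj2⟩ := he n _ h4
    refine mem_iUnion.2 ⟨Nat.pair n j, ?_⟩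
    simp only [Nat.unpair_pair]
    rw [hj2]
    exact mem_iInter₂.1 hxn j (Finset.mem_range.2 hj)
  · simp only [E] at hxn
    rw [if_neg hcond] at hxn
    exact hxn.elim

theorem rothS_singleton (x : ℝ) : RothS {x} := by
  intro U hU hc
  obtain ⟨i, hi⟩ := mem_iUnion.1 (hc 0 (mem_singleton x))
  refine ⟨fun _ => i, ?_⟩
  rintro _ rfl
  exact mem_iUnion.2 ⟨0, hi⟩

theorem rothS_empty : RothS ∅ := fun _ _ _ => ⟨fun _ => 0, empty_subset _⟩

theorem not_rothS_univ : ¬ RothS (univ : Set ℝ) := by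
  intro h
  obtain ⟨q, hq⟩ := exists_surjective_nat ℚ
  obtain ⟨g, hg⟩ := h (fun n i => Metric.ball ((q i : ℚ) : ℝ) ((2 : ℝ)⁻¹ ^ n))
    (fun n i => Metric.isOpen_ball) (fun n x _ => by
      have h1 : (0 : ℝ) < 2⁻¹ ^ n := by positivity
      obtain ⟨r, hr⟩ := exists_rat_btwn (show x < x + 2⁻¹ ^ n by linarith)
      obtain ⟨i, rfl⟩ := hq r
      refine mem_iUnion.2 ⟨i, ?_⟩
      rw [Metric.mem_ball, Real.dist_eq, abs_lt]
      constructor <;> linarith [hr.1, hr.2])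
  have h1 : volume (univ : Set ℝ) ≤ ∑' n : ℕ, 2 * (2⁻¹ : ℝ≥0∞) ^ n := by
    refine (measure_mono hg).trans ((measure_iUnion_le _).trans
      (ENNReal.tsum_le_tsum fun n => ?_))
    rw [Real.volume_ball, ENNReal.ofReal_mul (by norm_num), ENNReal.ofReal_pow (by positivity),
      ENNReal.ofReal_inv_of_pos (by norm_num)]
    simp
  rw [ENNReal.tsum_mul_left, ENNReal.tsum_geometric, ENNReal.one_sub_inv_two, inv_inv,
    Real.volume_univ] at h1
  exact absurd h1 (not_le.2 (by exact ENNReal.mul_lt_top (by simp) (by simp)))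

theorem lt_addRoth {T : Type} (hT : SparseCap T) : #T < addRoth := by
  classical
  have hne : {κ | ∃ F : Set (Set ℝ), (∀ X ∈ F, Rothberger ↥X) ∧ ¬ Rothberger ↥(⋃₀ F) ∧
      #F = κ}.Nonempty := by
    refine ⟨_, range (fun x : ℝ => ({x} : Set ℝ)), ?_, ?_, rfl⟩
    · rintro _ ⟨x, rfl⟩
      exact of_rothS (rothS_singleton x)
    · intro h
      refine not_rothS_univ ?_
      have h1 : ⋃₀ range (fun x : ℝ => ({x} : Set ℝ)) = Set.univ := by
        rw [sUnion_range]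
        exact iUnion_of_singleton ℝ
      rw [← h1]
      exact rothS_of h
  obtain ⟨F, hF1, hF2, hF3⟩ := csInf_mem hne
  by_contra hcon
  have h1 : #F ≤ #T := by
    rw [hF3]
    exact not_lt.1 hcon
  rcases F.eq_empty_or_nonempty with rfl | ⟨A, hA⟩
  · refine hF2 ?_
    rw [sUnion_empty]
    exact of_rothS rothS_empty
  · have : Nonempty F := ⟨⟨A, hA⟩⟩
    obtain ⟨j⟩ := h1
    obtain ⟨ψ, hψ⟩ : ∃ ψ : T → F, Function.Surjective ψ :=
      ⟨Function.invFun j, Function.invFun_surjective j.injective⟩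
    refine hF2 (of_rothS ?_)
    have h2 : ⋃₀ F = ⋃ s : T, (ψ s : Set ℝ) := by
      rw [sUnion_eq_iUnion]
      exact (hψ.iUnion_comp fun A : F => (A : Set ℝ)).symm
    rw [h2]
    exact rothS_iUnion hT fun s => rothS_of (hF1 _ (ψ s).2)

end Pool.Agent.H631.RO
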