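import Pool.Agent.H631.RO.Frame

/-!
# The sentence `PhiHolds` over the trivial notion of forcing
-/

set_option autoImplicit false

namespace Pool.Agent.H631.RO

open Pool.Agent.Helper669.Forcing

section

universe v w

theorem u_fnot {φ : Set Unit} {p : Unit} : p ∈ fnot φ ↔ p ∉ φ :=
  ⟨fun h => h p le_rfl, fun h _ _ => h⟩

theorem u_fall {ι : Sort v} {φ : ι → Set Unit} {p : Unit} : p ∈ fall φ ↔ ∀ i, p ∈ φ i := Iff.rfl

theorem u_fand {φ ψ : Set Unit} {p : Unit} : p ∈ fand φ ψ ↔ p ∈ φ ∧ p ∈ ψ := Iff.rfl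

theorem u_fground {h : Prop} {p : Unit} : p ∈ fground (P := Unit) h ↔ h := Iff.rfl

theorem u_fex {ι : Sort v} {φ : ι → Set Unit} {p : Unit} : p ∈ fex φ ↔ ∃ i, p ∈ φ i := by
  rw [mem_fex]
  constructor
  · intro h
    obtain ⟨r, -, i, hi⟩ := h p le_rfl
    exact ⟨i, hi⟩
  · rintro ⟨i, hi⟩ q _
    exact ⟨q, le_rfl, i, hi⟩

theorem u_fimp {φ ψ : Set Unit} {p : Unit} : p ∈ fimp φ ψ ↔ (p ∈ φ → p ∈ ψ) := by
  rw [mem_fimp]
  constructor
  · intro h h1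
    obtain ⟨r, -, hr⟩ := h p le_rfl h1
    exact hr
  · intro h q _ h1
    exact ⟨q, le_rfl, h h1⟩

theorem u_meets {N : Set Unit} {p : Unit} : p ∈ meets N ↔ p ∈ N := by
  constructor
  · intro h
    obtain ⟨r, -, s, hs, -⟩ := h p le_rfl
    exact hs
  · intro h q _
    exact ⟨q, le_rfl, p, h, le_rfl⟩

theorem u_IsFun {X : Type v} {Y : Type w} {R : X → Y → Set Unit} {p : Unit} :
    p ∈ IsFun R ↔ ∃ f : X → Y, ∀ x y, p ∈ R x y ↔ f x = y := by
  simp only [IsFun, u_fand, u_fall, u_fex, u_meets, u_fimp, u_fground]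
  constructor
  · rintro ⟨h1, h2⟩
    choose f hf using h1
    refine ⟨f, fun x y => ⟨fun h => h2 x _ _ ⟨hf x, h⟩, ?_⟩⟩
    rintro rfl
    exact hf x
  · rintro ⟨f, hf⟩
    refine ⟨fun x => ⟨f x, (hf x _).2 rfl⟩, fun x y y' h => ?_⟩
    rw [hf, hf] at h
    exact h.1.symm.trans h.2

theorem u_Slalom {h : ℕ → ℕ} {S : ℕ → ℕ → Set Unit} {p : Unit} :
    p ∈ SlalomN h S ↔ Slalom h fun n v => p ∈ S n v := by
  simp only [SlalomN, u_fand, u_fall, u_fex, u_meets, u_fimp, u_fground, u_fnot, Slalom]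

/-- the names of the elements of a set, over the trivial notion of forcing -/
theorem exists_names {X Y : Type} (S : X → Y → Prop) (p : Unit) :
    ∃ S' : X → Y → Set Unit, (fun n v => p ∈ S' n v) = S :=
  ⟨fun n v => {_q | S n v}, rfl⟩

theorem u_NotLoc {K : Type} {p : Unit} : p ∈ NotLocN Unit K ↔ NotLoc K := by
  simp only [NotLocN, u_fand, u_fall, u_fex, u_meets, u_fimp, u_fground, u_fnot, u_Slalom,
    u_IsFun, NotLoc]
  constructor
  · rintro ⟨c, hc, h⟩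
    choose f hf using hc
    refine ⟨f, fun S hS => ?_⟩
    obtain ⟨k, hk⟩ := h (fun n v => {_q | S n v}) hS
    refine ⟨k, fun N => ?_⟩
    obtain ⟨n, hn, v, hv1, hv2⟩ := hk N
    rw [hf] at hv1
    subst hv1
    exact ⟨n, hn, hv2⟩
  · rintro ⟨c, hc⟩
    refine ⟨fun k n v => {_q | c k n = v}, fun k => ⟨c k, fun _ _ => Iff.rfl⟩,
      fun S hS => ?_⟩
    obtain ⟨k, hk⟩ := hc (fun n v => p ∈ S n v) hS
    refine ⟨k, fun N => ?_⟩
    obtain ⟨n, hn, hn2⟩ := hk N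
    exact ⟨n, hn, c k n, rfl, hn2⟩

theorem u_SparseCap {T : Type} {p : Unit} : p ∈ SparseCapN Unit T ↔ SparseCap T := by
  simp only [SparseCapN, u_fand, u_fall, u_fex, u_meets, u_fimp, u_fground, u_fnot, u_Slalom,
    u_IsFun, SparseCap]
  constructor
  · intro h f
    obtain ⟨C, hC1, hC2, hC3⟩ := h (fun k n v => {_q | f k n = v})
      (fun k => ⟨f k, fun _ _ => Iff.rfl⟩)
    refine ⟨fun n => p ∈ C n, hC1, fun k => ?_, fun x => ?_⟩
    · obtain ⟨N, hN⟩ := hC2 k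
      refine ⟨N, fun i j h1 h2 h3 h4 => ?_⟩
      obtain ⟨v, hv1, hv2⟩ := hN i j h1 h2 h3 h4
      rw [show f k i = v from hv1]
      exact hv2
    · obtain ⟨S, hS1, hS2⟩ := hC3 (fun k n v => {_q | x k n = v})
        (fun k => ⟨x k, fun _ _ => Iff.rfl⟩)
      refine ⟨fun n v => p ∈ S n v, hS1, fun k => ?_⟩
      obtain ⟨N, hN⟩ := hS2 k
      refine ⟨N, fun i j h1 h2 h3 h4 h5 => ?_⟩
      obtain ⟨v, hv1, hv2⟩ := hN i j h1 h2 h3 h4 ⟨_, rfl, h5⟩
      rw [show x k i = v from hv1]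
      exact hv2
  · intro h f hf
    choose f' hf' using hf
    obtain ⟨C, hC1, hC2, hC3⟩ := h f'
    refine ⟨fun n => {_q | C n}, hC1, fun k => ?_, fun x hx => ?_⟩
    · obtain ⟨N, hN⟩ := hC2 k
      exact ⟨N, fun i j h1 h2 h3 h4 => ⟨f' k i, (hf' k _ _).2 rfl, hN i j h1 h2 h3 h4⟩⟩
    · choose x' hx' using hx
      obtain ⟨S, hS1, hS2⟩ := hC3 x'
      refine ⟨fun n v => {_q | S n v}, hS1, fun k => ?_⟩
      obtain ⟨N, hN⟩ := hS2 k
      refine ⟨N, fun i j h1 h2 h3 h4 h5 => ?_⟩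
      obtain ⟨v, hv1, hv2⟩ := h5
      rw [hx'] at hv1
      subst hv1
      exact ⟨_, (hx' k _ _).2 rfl, hN i j h1 h2 h3 h4 hv2⟩

/-- the meaning of the sentence `PhiHolds` -/
theorem unit_meaning (K T : Type) (p : Unit) : p ∈ PhiHolds Unit K T ↔ PhiFor K T := by
  rw [PhiHolds, u_fand, u_NotLoc, u_SparseCap, PhiFor]

end

end Pool.Agent.H631.RO
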