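import Pool.Agent.H631.RO.Book
import Pool.Agent.H631.RO.NullZ
import Pool.Agent.H631.RO.Roth
import Pool.Agent.H631.RO.UnitM

/-!
# The values of the additivity numbers
-/

set_option autoImplicit false

namespace Pool.Agent.H631.RO

open Cardinal MeasureTheory

theorem mk_le_aleph_one {K : Type} [LinearOrder K]
    (hK : ∀ k : K, (Set.Iio k).Countable) : #K ≤ ℵ₁ := by
  by_contra hcon
  rw [not_le] at hcon
  obtain ⟨f⟩ : Nonempty ((ℵ₁ : Cardinal.{0}).ord.ToType ↪ K) := by
    rw [← Cardinal.le_def, Cardinal.mk_ord_toType]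
    exact hcon.le
  have h1 : #(Set.range f) < #K := by
    rw [Cardinal.mk_range_eq f f.injective, Cardinal.mk_ord_toType]
    exact hcon
  by_cases hb : ∃ k, ∀ i, f i < k
  · obtain ⟨k, hk⟩ := hb
    have h2 : Set.range f ⊆ Set.Iio k := by
      rintro _ ⟨i, rfl⟩
      exact hk i
    have h3 := (hK k).mono h2
    rw [← Cardinal.le_aleph0_iff_set_countable, Cardinal.mk_range_eq f f.injective,
      Cardinal.mk_ord_toType] at h3
    exact absurd h3 (not_le.2 Cardinal.aleph0_lt_aleph_one)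
  · push Not at hb
    have h2 : (Set.univ : Set K) ⊆ ⋃ i, Set.Iic (f i) := by
      intro k _
      obtain ⟨i, hi⟩ := hb k
      exact Set.mem_iUnion.2 ⟨i, hi⟩
    have h3 : #K ≤ ℵ₁ := by
      rw [← Cardinal.mk_univ]
      refine (Cardinal.mk_le_mk_of_subset h2).trans ((Cardinal.mk_iUnion_le _).trans ?_)
      rw [Cardinal.mk_ord_toType]
      refine (mul_le_mul' le_rfl (ciSup_le' (a := ℵ₀) fun i => ?_)).trans
        (Cardinal.mul_aleph0_eq Cardinal.aleph0_lt_aleph_one.le).le
      have h4 : Set.Iic (f i) = insert (f i) (Set.Iio (f i)) := by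
        ext β
        simp only [Set.mem_Iic, Set.mem_insert_iff, Set.mem_Iio]
        exact le_iff_eq_or_lt
      rw [h4, Cardinal.le_aleph0_iff_set_countable]
      exact (hK (f i)).insert (f i)
    exact absurd h3 (not_le.2 hcon)

theorem aleph_one_le_addN : ℵ₁ ≤ addN := by
  have hne : {κ : Cardinal.{0} | ∃ F : Set (Set ℝ), (∀ A ∈ F, volume A = 0) ∧
      volume (⋃₀ F) ≠ 0 ∧ #F = κ}.Nonempty := by
    refine ⟨_, Set.range (fun x : ℝ => ({x} : Set ℝ)), ?_, ?_, rfl⟩
    · rintro _ ⟨x, rfl⟩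
      simp
    · have h1 : ⋃₀ Set.range (fun x : ℝ => ({x} : Set ℝ)) = Set.univ := by
        rw [Set.sUnion_range]
        exact Set.iUnion_of_singleton ℝ
      rw [h1]
      simp
  obtain ⟨F, h1, h2, h3⟩ := csInf_mem hne
  change #F = addN at h3
  rw [← h3]
  by_contra hcon
  have h4 : F.Countable := by
    rw [Cardinal.countable_iff_lt_aleph_one]
    exact not_le.1 hcon
  exact h2 ((measure_sUnion_null_iff h4).2 h1)

theorem add_values {K T : Type} [LinearOrder K] (hK : ∀ k : K, (Set.Iio k).Countable)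
    (hKT : Nonempty (K ↪ T)) (h : PhiFor K T) :
    addN = ℵ₁ ∧ #T < addRoth ∧ addN < addRoth := by
  have h1 := addN_le h.1
  have h2 := lt_addRoth h.2
  refine ⟨le_antisymm (h1.trans (mk_le_aleph_one hK)) aleph_one_le_addN, h2, ?_⟩
  exact (h1.trans (Cardinal.mk_le_of_injective hKT.some.injective)).trans_lt h2

end Pool.Agent.H631.RO
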