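import Pool.Agent.H631.RO.Fan
import Pool.Agent.H631.RO.Raw

/-!
# The statements which are forced
-/

set_option autoImplicit false
set_option linter.unusedSectionVars false

namespace Pool.Agent.H631.RO

open Classical Pool.Agent.Helper669.Forcing

variable {M I W : Type} {rs : I → Prop} [LinearOrder W] [WellFoundedLT W] {Γ : Par M W rs}

theorem getD_eq_of_common {a b c : Cond M rs} {j : I} {n : ℕ} (h1 : le Γ Set.univ c a)
    (h2 : le Γ Set.univ c b) (ha : n < (a j).stem.length) (hb : n < (b j).stem.length) :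
    (a j).stem.getD n ∅ = (b j).stem.getD n ∅ := by
  rw [← getD_prefix (ext_stem (h1 j (Set.mem_univ _))) ha,
    ← getD_prefix (ext_stem (h2 j (Set.mem_univ _))) hb]

theorem length_le {a c : Cond M rs} (j : I) (h : le Γ Set.univ c a) :
    (a j).stem.length ≤ (c j).stem.length := (ext_stem (h j (Set.mem_univ _))).length_le

/-- the name of the Cohen real with the coordinate `j` -/
def coh (Γ : Par M W rs) (j : I) : ℕ → ℕ → Set (PP Γ) := fun n b =>
  {r | n < (PP.toC r j).stem.length ∧ ((PP.toC r j).stem.getD n ∅).card = b}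

theorem coh_isFun {tw : I → Prop} (hG : Good Γ tw) (j : I) (p : PP Γ) : p ∈ IsFun (coh Γ j) := by
  refine ⟨fun n => ?_, fun n v v' => ?_⟩
  · refine mem_fex.2 fun r hr => ?_
    obtain ⟨r', hr', hlen, -⟩ := ext_long hG j (n + 1) (PP.toC r)
    refine ⟨(r' : PP Γ), hr', ((r' j).stem.getD n ∅).card, ?_⟩
    exact meets_of_mem (P := PP Γ) (N := coh Γ j n _) (p := r') ⟨hlen, rfl⟩
  · refine mem_fimp.2 fun r hr h => ⟨r, le_rfl, ?_⟩
    obtain ⟨s, hs, z, hz, hsz⟩ := h.1 r le_rfl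
    obtain ⟨s', hs', z', hz', hsz'⟩ := h.2 s hs
    have h1 : le Γ Set.univ (PP.toC s') (PP.toC z) := hs'.trans hsz
    have h2 : le Γ Set.univ (PP.toC s') (PP.toC z') := hsz'
    show v = v'
    rw [← hz.2, ← hz'.2, getD_eq_of_common h1 h2 hz.1 hz'.1]

/-- `NotLoc K` is forced -/
theorem notLoc {tw : I → Prop} (hG : Good Γ tw) {K : Type} [Uncountable K] (lc : K → I)
    (hinj : Function.Injective lc) (hrs : ∀ l, ¬ rs (lc l)) (htw : ∀ l, ¬ tw (lc l)) (p : PP Γ) :
    p ∈ NotLocN (PP Γ) K := by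
  refine mem_fex.2 fun p1 hp1 => ⟨p1, le_rfl, fun l => coh Γ (lc l),
    fun l => coh_isFun hG _ _, ?_⟩
  intro S
  refine mem_fimp.2 fun q hq hS => ⟨q, le_rfl, ?_⟩
  refine mem_fex.2 fun r hr => ?_
  by_contra hcon
  -- for each `l` a bad condition
  have hbad : ∀ l : K, ∃ (N : ℕ) (s : PP Γ), s ≤ r ∧ ∀ s' ≤ s, ∀ n, N ≤ n → ∀ v,
      s' ∈ meets (coh Γ (lc l) n v) → ∃ s'' ≤ s', s'' ∈ meets (S n v) := by
    intro l
    have h1 : ¬ (r ∈ fall fun N => fex fun n => fand (fground (N ≤ n))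
      (fex fun v => fand (meets (coh Γ (lc l) n v)) (fnot (meets (S n v))))) :=
      fun h => hcon ⟨r, le_rfl, l, h⟩
    simp only [mem_fall, not_forall] at h1
    obtain ⟨N, h1⟩ := h1
    rw [mem_fex] at h1
    push Not at h1
    obtain ⟨s, hs, h2⟩ := h1
    refine ⟨N, s, hs, fun s' hs' n hn v hv => ?_⟩
    by_contra hcon
    push Not at hcon
    apply h2 s' hs' n
    exact ⟨hn, mem_fex.2 fun u hu => ⟨u, le_rfl, v, down_meets _ _ hv _ hu,
      fun z hz => hcon z (hz.trans hu)⟩⟩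
  choose N s hs hs2 using hbad
  choose s1 hs1 hlen1 _ using fun l => ext_long hG (lc l) 1 (PP.toC (s l))
  choose s' hs' hprep using fun l => prep (Γ := Γ) (s1 l)
  have hne : ∀ l, s' l (lc l) ≠ CV.top := by
    intro l h
    have h1 := length_le (lc l) (hs' l)
    rw [h] at h1
    have h2 := hlen1 l
    simp only [CV.top_stem, List.length_nil] at h1
    omega
  have hunc : ¬ (Set.univ : Set K).Countable := Set.not_countable_univ
  obtain ⟨N0, hA⟩ := uncountable_fiber hunc N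
  obtain ⟨A', R, E, m, L, hA'A, hA', hlen, -, hfan⟩ := fan hG hA s' fun a _ => hprep a
  obtain ⟨t, ht⟩ : ∃ t, t = max L N0 := ⟨_, rfl⟩
  have htL : L ≤ t := by rw [ht]; exact le_max_left _ _
  have htN : N0 ≤ t := by rw [ht]; exact le_max_right _ _
  obtain ⟨hra, hfan⟩ := hfan t htL
  have hA'' : ¬ (A' \ {l | lc l ∈ R}).Countable := by
    intro hc
    apply hA'
    have hfin : {l | lc l ∈ R}.Finite :=
      Set.Finite.preimage (hinj.injOn) (Finset.finite_toSet R)
    refine (hc.union hfin.countable).mono fun a ha => ?_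
    by_cases hb : a ∈ {l | lc l ∈ R}
    · exact Or.inr hb
    · exact Or.inl ⟨ha, hb⟩
  obtain ⟨A0, hA0, hcard⟩ := exists_finset hA'' (Mf t ^ m * (hf t + 1))
  obtain ⟨v, hv⟩ := Set.countable_iff_exists_injOn.1 (Finset.countable_toSet A0)
  let ns : K → CV M := fun l => ⟨(s' l (lc l)).stem ++
    (List.replicate (t - (s' l (lc l)).stem.length) ∅ ++ [Finset.range (v l)]),
      (s' l (lc l)).pr⟩
  let p' : K → Cond M rs := fun l => upd (raise hG.dis E t (s' l)) (lc l) (ns l)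
    fun h => absurd h (hrs l)
  have hp'l : ∀ l, p' l (lc l) = ns l := fun l => upd_same _ _ _ _
  have hp'r : ∀ l, le Γ Set.univ (p' l) (raise hG.dis E t (s' l)) := by
    intro l i _
    by_cases hi : i = lc l
    · subst hi
      have h1 : raise hG.dis E t (s' l) (lc l) = s' l (lc l) :=
        raise_neg hG.dis fun h => htw l h.1
      refine ext_noreq (hG.coh _ (htw l) (hrs l)) ?_ ?_
      · rw [hp'l, h1]
        exact List.prefix_append _ _
      · rw [hp'l, h1]
    · exact ext_of_eq (upd_of_ne _ _ _ hi)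
  obtain ⟨A1, hA1, hc, P, hP⟩ := hfan A0 (hf t + 1) (fun a ha => (hA0 a ha).1) le_rfl hcard p' (by
    intro a ha l
    by_cases hl : l = lc a
    · subst hl
      exact Or.inr ⟨(hA0 a ha).2, hne a, hrs a, htw a⟩
    · exact Or.inl (upd_of_ne _ _ _ hl))
  have hPs : ∀ a ∈ A1, @LE.le (PP Γ) _ P (s a) := fun a ha =>
    le_trans' low_univ (hP a ha) (le_trans' low_univ (hp'r a)
      (le_trans' low_univ (hra a (hA0 a (hA1 ha)).1) (le_trans' low_univ (hs' a) (hs1 a))))
  have hPc : ∀ a ∈ A1, @Membership.mem (PP Γ) _ _ (meets (coh Γ (lc a) t (v a))) P := by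
    intro a ha
    have h1 : (s' a (lc a)).stem.length ≤ t :=
      (hlen a (hA0 a (hA1 ha)).1 (lc a)).trans htL
    have h2 := ext_stem (hP a ha (lc a) (Set.mem_univ _))
    have h3 : (p' a (lc a)).stem.length = t + 1 := by
      rw [hp'l]
      simp only [ns, List.length_append, List.length_replicate, List.length_cons,
        List.length_nil]
      omega
    refine meets_of_mem (P := PP Γ) (N := coh Γ (lc a) t (v a)) (p := P) ⟨?_, ?_⟩
    · show t < (P (lc a)).stem.length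
      have := h2.length_le
      omega
    · show ((P (lc a)).stem.getD t ∅).card = v a
      rw [getD_prefix h2 (by omega), hp'l]
      simp only [ns]
      rw [List.getD_append_right _ _ _ _ h1, List.getD_append_right _ _ _ _ (by
        rw [List.length_replicate])]
      simp
  -- one condition which puts all the values into `S`
  have hex : ∀ F : Finset K, F ⊆ A1 → ∃ P' : PP Γ, @LE.le (PP Γ) _ P' P ∧
      ∀ a ∈ F, P' ∈ meets (S t (v a)) := by
    intro F
    induction F using Finset.induction_on with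
    | empty => exact fun _ => ⟨P, le_refl' _ _, fun a ha => absurd ha (Finset.notMem_empty a)⟩
    | insert a F _ ih =>
      intro hF
      obtain ⟨P1, h1, h2⟩ := ih fun x hx => hF (Finset.mem_insert_of_mem hx)
      have haA : a ∈ A1 := hF (Finset.mem_insert_self a F)
      obtain ⟨P2, h3, h4⟩ := hs2 a P1 (h1.trans (hPs a haA)) t (by
        have : N a = N0 := (hA'A (hA0 a (hA1 haA)).1).2
        rw [this]
        exact htN) (v a) (down_meets _ _ (hPc a haA) _ h1)
      refine ⟨P2, h3.trans h1, fun b hb => ?_⟩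
      rcases Finset.mem_insert.1 hb with rfl | hb
      · exact h4
      · exact down_meets _ _ (h2 b hb) _ h3
  obtain ⟨P', hP'P, hP'⟩ := hex A1 (Finset.Subset.refl _)
  have hA1ne : A1.Nonempty := Finset.card_pos.1 (lt_of_lt_of_le (Nat.succ_pos _) hc)
  obtain ⟨a, ha⟩ := hA1ne
  have hP'q : P' ≤ q := hP'P.trans ((hPs a ha).trans ((hs a).trans hr))
  have hSP : P' ∈ SlalomN hf S := by
    intro n t
    exact down_fimp _ _ _ (hS n t) _ hP'q
  have himg : (A1.image v).card = A1.card := Finset.card_image_of_injOn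
    (hv.mono fun x hx => Finset.mem_coe.2 (hA1 (Finset.mem_coe.1 hx)))
  obtain ⟨r1, hr1, h1⟩ := mem_fimp.1 (hSP t (A1.image v)) P' le_rfl (by
    show hf t < _
    rw [himg]
    omega)
  obtain ⟨r2, hr2, w, hw, h2⟩ := mem_fex.1 h1 r1 le_rfl
  obtain ⟨b, hb, hbw⟩ := Finset.mem_image.1 hw
  subst hbw
  exact h2 r2 le_rfl (down_meets _ _ (hP' b hb) _ (hr2.trans hr1))

/-- a new element can be added at a sparse coordinate -/
theorem add_elem {tw : I → Prop} (hG : Good Γ tw) {c : I} (hc : tw c) (N : ℕ) (p : Cond M rs) :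
    ∃ p', le Γ Set.univ p' p ∧ ∃ i, N ≤ i ∧ i < (p' c).stem.length ∧
      ((p' c).stem.getD i ∅).Nonempty := by
  obtain ⟨p1, h1, h2⟩ := prep (Γ := Γ) p
  obtain ⟨V, hV⟩ := exists_bprep h2
  obtain ⟨L, hL⟩ : ∃ L : ℕ, ∀ j, (p1 j).stem.length ≤ L := by
    refine ⟨p1.supp.sup fun j => (p1 j).stem.length, fun l => ?_⟩
    by_cases h : l ∈ p1.supp
    · exact Finset.le_sup (f := fun l => (p1 l).stem.length) h
    · rw [Cond.mem_supp, not_not] at h
      rw [h]
      exact Nat.zero_le _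
  obtain ⟨t, ht⟩ : ∃ t, t = max N (max V L) := ⟨_, rfl⟩
  have htV : V ≤ t := by rw [ht]; exact (le_max_left _ _).trans (le_max_right _ _)
  have htL : L ≤ t := by rw [ht]; exact (le_max_right _ _).trans (le_max_right _ _)
  refine ⟨raise hG.dis {c} t p1, le_trans' low_univ (raise_le hG {c}
    (fun l => (hL l).trans htL) fun j k hk x hx i hi => ?_) h1, t, by
      rw [ht]; exact le_max_left _ _, ?_, ?_⟩
  · obtain ⟨v, hv, hv'⟩ := hV j k hk x hx i hi
    exact ⟨v, hv.trans htV, hv'⟩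
  · rw [raise_pos hG.dis hc (Or.inr (Finset.mem_singleton_self c))]
    show t < (rst t _).length
    rw [rst_length ((hL c).trans htL)]
    exact Nat.lt_succ_self t
  · rw [raise_pos hG.dis hc (Or.inr (Finset.mem_singleton_self c))]
    show ((rst t _).getD t ∅).Nonempty
    rw [rst_getD_eq ((hL c).trans htL)]
    exact Finset.singleton_nonempty 0

/-- the name of the sparse set with the coordinate `c` -/
def spn (Γ : Par M W rs) (c : I) : ℕ → Set (PP Γ) := fun i =>
  {r | i < (PP.toC r c).stem.length ∧ ((PP.toC r c).stem.getD i ∅).Nonempty}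

theorem spn_meets {c : I} {i : ℕ} {r : PP Γ} (h : r ∈ meets (spn Γ c i)) {q : PP Γ}
    (hq : q ≤ r) : ∃ q' ≤ q, q' ∈ spn Γ c i := by
  obtain ⟨s, hs, z, hz, hsz⟩ := h q hq
  refine ⟨s, hs, ?_⟩
  have h1 := ext_stem (hsz c (Set.mem_univ _))
  exact ⟨hz.1.trans_le h1.length_le, by rw [getD_prefix h1 hz.1]; exact hz.2⟩

theorem spn_down {c : I} {i : ℕ} {r q : PP Γ} (h : r ∈ spn Γ c i) (hq : q ≤ r) :
    q ∈ spn Γ c i := by
  have h1 := ext_stem (hq c (Set.mem_univ _))
  exact ⟨h.1.trans_le h1.length_le, by rw [getD_prefix h1 h.1]; exact h.2⟩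

theorem lt_wf (n : ℕ) : n < wf n := by
  rcases Nat.eq_zero_or_pos n with rfl | hn
  · exact Nat.one_pos
  · refine lt_of_lt_of_le Nat.lt_two_pow_self (Nat.pow_le_pow_right (by norm_num) ?_)
    have h1 : 1 ≤ n ^ n + 4 := by omega
    calc n = n * 1 * 1 := by ring
      _ ≤ n * n * (n ^ n + 4) := by gcongr; exact hn

/-- `SparseCap T` is forced -/
theorem sparseCap {tw : I → Prop} (hG : Good Γ tw) {T : Type} [Nonempty T]
    (hreq : ∀ X : T → Nm M rs, ∃ c, tw c ∧ (∀ k, ∃ m, Γ.req c m = some (X k, none)) ∧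
      ∀ x : T → Nm M rs, ∃ j, ∀ k, ∃ m, Γ.req j m = some (x k, some c)) (p : PP Γ) :
    p ∈ SparseCapN (PP Γ) T := by
  intro f
  refine mem_fimp.2 fun q hq hf => ⟨q, le_rfl, ?_⟩
  choose X hX using fun k => rawF (ccc hG) (f k) q (hf k)
  obtain ⟨c, hc, hcX, hcx⟩ := hreq X
  refine mem_fex.2 fun q1 hq1 => ⟨q1, le_rfl, spn Γ c, ?_, ?_, ?_⟩
  · intro N
    refine mem_fex.2 fun r hr => ?_
    obtain ⟨r', hr', i, hi, h1, h2⟩ := add_elem hG hc N (PP.toC r)
    exact ⟨(r' : PP Γ), hr', i, hi, meets_of_mem (P := PP Γ) (N := spn Γ c i) (p := r')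
      ⟨h1, h2⟩⟩
  · intro k
    obtain ⟨m, hm⟩ := hcX k
    have hcrs : ¬ rs c := hG.dis c hc
    refine mem_fex.2 fun r hr => ?_
    let r1 : Cond M rs := upd (PP.toC r) c ⟨(PP.toC r c).stem, insert m (PP.toC r c).pr⟩
      fun h => absurd h hcrs
    have hr1c : r1 c = ⟨(PP.toC r c).stem, insert m (PP.toC r c).pr⟩ := upd_same _ _ _ _
    have hr1 : @LE.le (PP Γ) _ r1 r := by
      intro i _
      by_cases hi : i = c
      · subst hi
        exact ext_same_stem (by rw [hr1c]) (by rw [hr1c]; exact Finset.subset_insert _ _)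
      · exact ext_of_eq (upd_of_ne _ _ _ hi)
    refine ⟨r1, hr1, (PP.toC r c).stem.length, fun i j => ?_⟩
    refine mem_fimp.2 fun R1 hR1 hj => ⟨R1, le_rfl, ?_⟩
    refine mem_fimp.2 fun R2 hR2 hCi => ⟨R2, le_rfl, ?_⟩
    refine mem_fimp.2 fun R3 hR3 hCj => ⟨R3, le_rfl, ?_⟩
    refine mem_fimp.2 fun R4 hR4 hij => ⟨R4, le_rfl, ?_⟩
    refine mem_fex.2 fun u hu => ?_
    have hj' : (PP.toC r c).stem.length ≤ j := hj
    have hij' : i < j := hij
    obtain ⟨a1, ha1, hia⟩ := spn_meets hCi (hu.trans (hR4.trans hR3))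
    obtain ⟨a2, ha2, hja⟩ := spn_meets hCj (ha1.trans (hu.trans hR4))
    obtain ⟨a3, ha3, v, hv⟩ := Val.dense (Γ := Γ) low_univ (PP.toC a2) (X k) i
    have h3i : (a3 : PP Γ) ∈ spn Γ c i := spn_down hia (le_trans' low_univ ha3 ha2)
    have h3j : (a3 : PP Γ) ∈ spn Γ c j := spn_down hja ha3
    have h3u : @LE.le (PP Γ) _ a3 u := le_trans' low_univ ha3 (ha2.trans ha1)
    have h3r1 : @LE.le (PP Γ) _ a3 r1 :=
      h3u.trans (hu.trans (hR4.trans (hR3.trans (hR2.trans hR1))))
    have h3q : @LE.le (PP Γ) _ a3 q := h3r1.trans (hr1.trans (hr.trans hq1))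
    have hvj : v ≤ j := by
      have h1 : ext Γ c a3 r1 := h3r1 c (Set.mem_univ _)
      rw [ext_iff] at h1
      refine h1.2.2.2 m (by rw [hr1c]; exact Finset.mem_insert_self _ _) (X k) hm j
        (by rw [hr1c]; exact hj') h3j.1 h3j.2 i hij' h3i.2 a3 (le_refl' _ _) v ?_
      exact (Val.iff_of_supp (low_below _) (Set.subset_univ _) (hG.spa c m _ hm).2).1 hv
    exact ⟨(a3 : PP Γ), h3u, v, hX k a3 h3q i v hv, hvj⟩
  · intro x
    refine mem_fimp.2 fun q2 hq2 hx => ⟨q2, le_rfl, ?_⟩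
    choose Y hY using fun k => rawF (ccc hG) (x k) q2 (hx k)
    obtain ⟨j, hj⟩ := hcx Y
    obtain ⟨k0⟩ := ‹Nonempty T›
    obtain ⟨m0, hm0⟩ := hj k0
    have hrs : rs j := (hG.loc j m0 _ _ hm0).1
    refine mem_fex.2 fun q3 hq3 => ⟨q3, le_rfl, fun n v =>
      {r | n < (PP.toC r j).stem.length ∧ v ∈ (PP.toC r j).stem.getD n ∅}, ?_, ?_⟩
    · -- a slalom
      intro n t
      refine mem_fimp.2 fun r hr hn => ⟨r, le_rfl, ?_⟩
      have hn' : wf n < t.card := hn
      refine mem_fex.2 fun s hs => ?_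
      obtain ⟨s', hs', hlen, -⟩ := ext_long hG j (n + 1) (PP.toC s)
      have hcard : ((s' j).stem.getD n ∅).card ≤ wf n := (s'.legit hrs).2 n (by omega)
      obtain ⟨v, hv, hv'⟩ := Finset.exists_mem_notMem_of_card_lt_card (hcard.trans_lt hn')
      refine ⟨(s' : PP Γ), hs', v, hv, ?_⟩
      intro u hu hm
      obtain ⟨w, hw, z, hz, hwz⟩ := hm u le_rfl
      apply hv'
      have h1 : le Γ Set.univ (PP.toC w) s' := hw.trans hu
      have h2 : le Γ Set.univ (PP.toC w) (PP.toC z) := hwz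
      rw [getD_eq_of_common h1 h2 (by omega) hz.1]
      exact hz.2
    · -- capturing
      intro k
      obtain ⟨m, hmc⟩ := hj k
      obtain ⟨-, -, hlt, hsup⟩ := hG.loc j m _ _ hmc
      refine mem_fex.2 fun r hr => ?_
      obtain ⟨r', hr', hlen, hpr⟩ := ext_long hG j ((PP.toC r j).pr.card + 1) (PP.toC r)
      have hleg : Legit (M := M) ⟨(r' j).stem, insert m (r' j).pr⟩ := by
        refine ⟨?_, (r'.legit hrs).2⟩
        refine (Finset.card_insert_le _ _).trans ?_
        rw [hpr]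
        exact hlen.trans (lt_wf _).le
      let r1 : Cond M rs := upd r' j ⟨(r' j).stem, insert m (r' j).pr⟩ fun _ => hleg
      have hr1j : r1 j = ⟨(r' j).stem, insert m (r' j).pr⟩ := upd_same _ _ _ _
      have hr1 : le Γ Set.univ r1 r' := by
        intro i _
        by_cases hi : i = j
        · subst hi
          exact ext_same_stem (by rw [hr1j]) (by rw [hr1j]; exact Finset.subset_insert _ _)
        · exact ext_of_eq (upd_of_ne _ _ _ hi)
      have hr1r : (@LE.le (PP Γ) _ r1 r) := le_trans' low_univ hr1 hr'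
      refine ⟨r1, hr1r, (r' j).stem.length, fun i u => ?_⟩
      refine mem_fimp.2 fun R1 hR1 hi => ⟨R1, le_rfl, ?_⟩
      refine mem_fimp.2 fun R2 hR2 hiu => ⟨R2, le_rfl, ?_⟩
      refine mem_fimp.2 fun R3 hR3 hCu => ⟨R3, le_rfl, ?_⟩
      refine mem_fimp.2 fun R4 hR4 hnC => ⟨R4, le_rfl, ?_⟩
      refine mem_fimp.2 fun R5 hR5 hlB => ⟨R5, le_rfl, ?_⟩
      refine mem_fex.2 fun b hb => ?_
      have hi' : (r' j).stem.length ≤ i := hi
      have hiu' : i < u := hiu
      obtain ⟨a1, ha1, hl1, -⟩ := ext_long hG j (i + 1) (PP.toC b)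
      obtain ⟨a2, ha2, hua⟩ := spn_meets hCu (q := (a1 : PP Γ))
        (le_trans (show @LE.le (PP Γ) _ a1 b from ha1) (hb.trans (hR5.trans hR4)))
      obtain ⟨a3, ha3, v, hv⟩ := Val.dense (Γ := Γ) low_univ (PP.toC a2) (Y k) i
      have h3b : @LE.le (PP Γ) _ a3 b := le_trans' low_univ ha3 (le_trans' low_univ ha2 ha1)
      obtain ⟨a4, ha4, v', hv', hv'lt⟩ := mem_fex.1 hlB a3 (h3b.trans hb)
      have hv'lt' : v' < Bf u := hv'lt
      have h4b : a4 ≤ b := ha4.trans h3b
      have h4R4 : a4 ≤ R4 := h4b.trans (hb.trans hR5)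
      have h4r1 : @LE.le (PP Γ) _ a4 r1 := h4R4.trans (hR4.trans (hR3.trans (hR2.trans hR1)))
      have h4q2 : a4 ≤ q2 := h4r1.trans (hr1r.trans (hr.trans hq3))
      have hval : Val (le Γ Set.univ) (PP.toC a4) (Y k) i v := hv.mono low_univ ha4
      have hm4 : a4 ∈ meets (x k i v) := hY k a4 h4q2 i v hval
      have hvv : v = v' := IsFun.unique (down_IsFun _ _ (hx k) _ h4q2) hm4 hv'
      have h4u : a4 ∈ spn Γ c u := spn_down hua (ha4.trans ha3)
      have hnext : NextAt (PP.toC a4 c).stem i u := by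
        refine ⟨hiu', h4u.1, h4u.2, fun l hl1 hl2 hne => ?_⟩
        have h5 : a4 ∈ spn Γ c l := ⟨hl2.trans h4u.1, hne⟩
        obtain ⟨a5, ha5, h6⟩ := mem_fimp.1 (hnC l) a4 h4R4 hl1
        obtain ⟨a6, ha6, h7⟩ := mem_fimp.1 h6 a5 le_rfl hl2
        exact h7 a6 le_rfl (meets_of_mem (spn_down h5 (ha6.trans ha5)))
      have hlj : i < (PP.toC a4 j).stem.length := lt_of_lt_of_le hl1
        (length_le j (show le Γ Set.univ (PP.toC a4) a1 from
          le_trans' low_univ ha4 (le_trans' low_univ ha3 ha2)))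
      have hmem : v ∈ (PP.toC a4 j).stem.getD i ∅ := by
        have h1 : ext Γ j (PP.toC a4) r1 := h4r1 j (Set.mem_univ _)
        rw [ext_iff] at h1
        refine h1.2.2.1 m (by rw [hr1j]; exact Finset.mem_insert_self _ _) (Y k) c hmc i
          (by rw [hr1j]; exact hi') hlj (PP.toC a4) (le_refl' _ _) v ?_ u hnext ?_
        · exact (Val.iff_of_supp (low_below _) (Set.subset_univ _) hsup).1 hval
        · rw [hvv]
          exact hv'lt'
      exact ⟨a4, h4b, v, hm4, meets_of_mem ⟨hlj, hmem⟩⟩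

end Pool.Agent.H631.RO
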