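import Pool.Agent.H631.RO.Basic
import Pool.Graph.R_seed8.Helper669.Forcing

/-!
# The preorder of the conditions, the sentence which is forced, good parameters
-/

set_option autoImplicit false
set_option linter.unusedSectionVars false

namespace Pool.Agent.H631.RO

open Classical Pool.Agent.Helper669.Forcing

/-! ### The sentence of the forcing language -/

section Sentence

variable {P : Type} [Preorder P]

/-- Forcing version of `Slalom`. -/
def SlalomN (h : ℕ → ℕ) (S : ℕ → ℕ → Set P) : Set P :=
  fall fun n => fall fun t : Finset ℕ => fimp (fground (h n < t.card))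
    (fex fun v => fand (fground (v ∈ t)) (fnot (meets (S n v))))

/-- Forcing version of `NotLoc`; functions are given by names of their graphs. -/
def NotLocN (P : Type) [Preorder P] (K : Type) : Set P :=
  fex fun c : K → ℕ → ℕ → Set P => fand (fall fun k => IsFun (c k))
    (fall fun S : ℕ → ℕ → Set P => fimp (SlalomN hf S)
      (fex fun k => fall fun N => fex fun n => fand (fground (N ≤ n))
        (fex fun v => fand (meets (c k n v)) (fnot (meets (S n v))))))

/-- Forcing version of `SparseCap`. -/
def SparseCapN (P : Type) [Preorder P] (T : Type) : Set P :=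
  fall fun f : T → ℕ → ℕ → Set P => fimp (fall fun k => IsFun (f k))
    (fex fun C : ℕ → Set P =>
      fand (fall fun N => fex fun i => fand (fground (N ≤ i)) (meets (C i)))
      (fand (fall fun k => fex fun N => fall fun i => fall fun j => fimp (fground (N ≤ j))
          (fimp (meets (C i)) (fimp (meets (C j)) (fimp (fground (i < j))
            (fex fun v => fand (meets (f k i v)) (fground (v ≤ j)))))))
        (fall fun x : T → ℕ → ℕ → Set P => fimp (fall fun k => IsFun (x k))
          (fex fun S : ℕ → ℕ → Set P => fand (SlalomN wf S)
            (fall fun k => fex fun N => fall fun i => fall fun j => fimp (fground (N ≤ i))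
              (fimp (fground (i < j)) (fimp (meets (C j))
                (fimp (fall fun l => fimp (fground (i < l)) (fimp (fground (l < j))
                    (fnot (meets (C l)))))
                  (fimp (fex fun v => fand (meets (x k i v)) (fground (v < Bf j)))
                    (fex fun v => fand (meets (x k i v)) (meets (S i v))))))))))))

/-- The sentence `PhiFor K T` of the forcing language. -/
def PhiHolds (P : Type) [Preorder P] (K T : Type) : Set P :=
  fand (NotLocN P K) (SparseCapN P T)

end Sentence

/-! ### The preorder of the conditions -/

variable {M I W : Type} {rs : I → Prop} [LinearOrder W] [WellFoundedLT W]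

/-- the conditions, with the order given by the parameters -/
def PP (_Γ : Par M W rs) : Type := Cond M rs

variable {Γ : Par M W rs}

/-- an element of `PP Γ` as a condition -/
abbrev PP.toC (r : PP Γ) : Cond M rs := r

noncomputable instance : Preorder (PP Γ) where
  le q p := le Γ Set.univ q p
  le_refl p := le_refl' Set.univ p
  le_trans _ _ _ h1 h2 := le_trans' low_univ h1 h2

theorem PP.le_def {q p : PP Γ} : q ≤ p ↔ le Γ Set.univ q p := Iff.rfl

/-! ### Good parameters -/

/-- good parameters: restricted coordinates `j`, whose requirements `(x, some c)` all use the same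
sparse coordinate `c`, sparse coordinates with requirements `(x, none)`, and Cohen coordinates
(neither restricted nor sparse) without requirements -/
structure Good (Γ : Par M W rs) (tw : I → Prop) : Prop where
  loc : ∀ j k x c, Γ.req j k = some (x, some c) →
    rs j ∧ tw c ∧ Γ.rk c < Γ.rk j ∧ Supp (below Γ (Γ.rk j)) x
  spa : ∀ j k x, Γ.req j k = some (x, none) → tw j ∧ Supp (below Γ (Γ.rk j)) x
  dis : ∀ j, tw j → ¬ rs j
  coh : ∀ j, ¬ tw j → ¬ rs j → ∀ k, Γ.req j k = none
  uni : ∀ j k k' x x' c c', Γ.req j k = some (x, some c) → Γ.req j k' = some (x', some c') →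
    c = c'

/-- the countable chain condition -/
def CCC (Γ : Par M W rs) : Prop :=
  ∀ A : Set (Cond M rs), ¬ A.Countable → ∃ p ∈ A, ∃ q ∈ A, p ≠ q ∧
    ∃ r, le Γ Set.univ r p ∧ le Γ Set.univ r q

end Pool.Agent.H631.RO
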