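import Pool.Agent.H631.RO.Frame

/-!
# Preparation of a condition, and long stems
-/

set_option autoImplicit false
set_option linter.unusedSectionVars false

namespace Pool.Agent.H631.RO

open Classical

variable {M I W : Type} {rs : I → Prop} [LinearOrder W] [WellFoundedLT W] {Γ : Par M W rs}

/-- the name of the function in a requirement -/
def xOf (z : Option (Nm M rs × Option I)) : Nm M rs :=
  match z with
  | some (x, _) => x
  | none => fun _ _ => none

/-- finitely many values can be decided -/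
theorem Val.decideF {β : Type} {T : Set I} (hT : Low Γ T) (F : Finset β)
    (X : β → Nm M rs) (n : β → ℕ) (t : Cond M rs) :
    ∃ t', le Γ T t' t ∧ ∀ b ∈ F, ∃ v, Val (le Γ T) t' (X b) (n b) v := by
  induction F using Finset.induction_on with
  | empty => exact ⟨t, le_refl' T t, fun b h => absurd h (Finset.notMem_empty b)⟩
  | insert b F _ ih =>
    obtain ⟨t1, h1, h2⟩ := ih
    obtain ⟨t2, h3, v, hv⟩ := Val.dense (Γ := Γ) hT t1 (X b) (n b)
    refine ⟨t2, le_trans' hT h3 h1, fun b' h => ?_⟩
    rcases Finset.mem_insert.1 h with rfl | h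
    · exact ⟨v, hv⟩
    · obtain ⟨w, hw⟩ := h2 b' h
      exact ⟨w, hw.mono hT h3⟩

theorem getD_append_map {s : List (Finset ℕ)} {N i : ℕ} (f : ℕ → Finset ℕ) (h1 : s.length ≤ i)
    (h2 : i < s.length + N) : (s ++ (List.range N).map f).getD i ∅ = f (i - s.length) := by
  rw [List.getD_append_right _ _ _ _ h1, List.getD_eq_getElem _ _ (by simp; omega)]
  simp

theorem getD_append_replicate {s : List (Finset ℕ)} {N i : ℕ} (w : Finset ℕ)
    (h1 : s.length ≤ i) (h2 : i < s.length + N) :
    (s ++ List.replicate N w).getD i ∅ = w := by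
  rw [List.getD_append_right _ _ _ _ h1, List.getD_eq_getElem _ _ (by simp; omega)]
  simp

theorem Cond.top_of_pr {p : Cond M rs} {j : I} {k : M} (h : k ∈ (p j).pr) : j ∈ p.supp := by
  rw [Cond.mem_supp]
  intro htop
  rw [htop] at h
  simp at h

/-- the condition is prepared for the ranks in `U`: the requirements at the sparse coordinates
are decided on the stems -/
def Prepared (Γ : Par M W rs) (U : Set W) (p : Cond M rs) : Prop :=
  ∀ j, Γ.rk j ∈ U → ∀ k ∈ (p j).pr, ∀ x, Γ.req j k = some (x, none) →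
    ∀ i < (p j).stem.length, ∃ v, Val (le Γ (below Γ (Γ.rk j))) p x i v

/-- every condition can be prepared for the ranks in `U` -/
def PrepOn (Γ : Par M W rs) (U : Set W) : Prop :=
  ∀ p : Cond M rs, ∃ p', le Γ Set.univ p' p ∧ Prepared Γ U p' ∧ ∀ i, Γ.rk i ∉ U → p' i = p i

theorem prep_step {U : Set W} (ih : ∀ η ∈ U, PrepOn Γ (Set.Iio η)) 
    (hU : ∀ ξ ∈ U, ∀ η, η < ξ → η ∈ U) : PrepOn Γ U := by
  intro p
  by_cases hF : ((p.supp.image Γ.rk).filter (· ∈ U)).Nonempty
  swap
  · rw [Finset.not_nonempty_iff_eq_empty] at hF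
    refine ⟨p, le_refl' _ _, fun j hj k hk => ?_, fun _ _ => rfl⟩
    have : Γ.rk j ∈ (p.supp.image Γ.rk).filter (· ∈ U) :=
      Finset.mem_filter.2 ⟨Finset.mem_image_of_mem _ (Cond.top_of_pr hk), hj⟩
    rw [hF] at this
    exact absurd this (Finset.notMem_empty _)
  obtain ⟨η, hη, hmax⟩ : ∃ η ∈ (p.supp.image Γ.rk).filter (· ∈ U),
      ∀ w ∈ (p.supp.image Γ.rk).filter (· ∈ U), w ≤ η :=
    ⟨_, Finset.max'_mem _ hF, fun w hw => Finset.le_max' _ w hw⟩
  have hηU : η ∈ U := (Finset.mem_filter.1 hη).2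
  have hlow : Low Γ (below Γ η) := low_below η
  obtain ⟨N, hN⟩ : ∃ N : ℕ, ∀ j ∈ p.supp, (p j).stem.length ≤ N :=
    ⟨p.supp.sup fun j => (p j).stem.length, fun j hj =>
      Finset.le_sup (f := fun j => (p j).stem.length) hj⟩
  obtain ⟨t1, ht1, hd1⟩ := Val.decideF (Γ := Γ) hlow
    (p.supp ×ˢ (p.supp.biUnion fun j => (p j).pr) ×ˢ Finset.range N)
    (fun z : I × M × ℕ => xOf (Γ.req z.1 z.2.1)) (fun z => z.2.2) p
  obtain ⟨p3, h1, h2, h3⟩ := ih η hηU (mix (below Γ η) t1 p)
  have hp3 : ∀ j, ¬ Γ.rk j < η → p3 j = p j := fun j hj => by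
    rw [h3 j hj, mix_notMem _ _ (show j ∉ below Γ η from hj)]
  refine ⟨p3, le_trans' low_univ h1 (mix_le hlow ht1), fun j hj k hk x hx i hi => ?_,
    fun i hi => hp3 i fun h => hi (hU η hηU _ h)⟩
  by_cases hc : Γ.rk j < η
  · exact h2 j hc k hk x hx i hi
  rw [hp3 j hc] at hk hi
  have hjs := Cond.top_of_pr hk
  have hjη : Γ.rk j = η := le_antisymm (hmax _ (Finset.mem_filter.2
    ⟨Finset.mem_image_of_mem _ hjs, hj⟩)) (not_lt.1 hc)
  obtain ⟨v, hv⟩ := hd1 (j, k, i) (Finset.mem_product.2 ⟨hjs, Finset.mem_product.2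
        ⟨Finset.mem_biUnion.2 ⟨j, hjs, hk⟩, Finset.mem_range.2 (hi.trans_le (hN j hjs))⟩⟩)
  refine ⟨v, ?_⟩
  rw [hx] at hv
  rw [hjη]
  exact Val.mono hlow hv (le_trans' hlow (le_mono (Set.subset_univ _) h1) (mix_eq hlow _ _))

theorem prep_Iio (ξ : W) : PrepOn Γ (Set.Iio ξ) := by
  induction ξ using WellFoundedLT.induction with
  | ind ξ ih =>
    exact prep_step (fun η hη => ih η hη) (fun a (ha : a < ξ) b hb => lt_trans hb ha)

/-- every condition can be prepared -/
theorem prep (p : Cond M rs) : ∃ p', le Γ Set.univ p' p ∧ Prepared Γ Set.univ p' := by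
  obtain ⟨p', h1, h2, -⟩ := prep_step (Γ := Γ) (U := Set.univ) (fun η _ => prep_Iio η)
    (fun _ _ _ _ => Set.mem_univ _) p
  exact ⟨p', h1, h2⟩

/-- the stem at a coordinate can be made long; at a sparse coordinate, no new elements are
needed -/
theorem ext_long {tw : I → Prop} (hG : Good Γ tw) (j : I) (N : ℕ) (p : Cond M rs) :
    ∃ p', le Γ Set.univ p' p ∧ N ≤ (p' j).stem.length ∧ (p' j).pr = (p j).pr := by
  set S : Set I := below Γ (Γ.rk j) with hSdef
  have hS : Low Γ S := low_below _
  have hjS : j ∉ S := fun h => lt_irrefl _ h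
  obtain ⟨t, htp, htd⟩ := Val.decideF (Γ := Γ) hS ((p j).pr ×ˢ Finset.range N)
    (fun z : M × ℕ => xOf (Γ.req j z.1)) (fun z => z.2) p
  have hdec : ∀ k i, ∃ v, k ∈ (p j).pr → i < N → Val (le Γ S) t (xOf (Γ.req j k)) i v := by
    intro k i
    by_cases h : k ∈ (p j).pr ∧ i < N
    · obtain ⟨v, hv⟩ := htd (k, i) (Finset.mem_product.2 ⟨h.1, Finset.mem_range.2 h.2⟩)
      exact ⟨v, fun _ _ => hv⟩
    · exact ⟨0, fun h1 h2 => absurd ⟨h1, h2⟩ h⟩
  choose v hv using hdec
  set len := (p j).stem.length with hlen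
  let g : ℕ → Finset ℕ := fun i => if rs j then (p j).pr.image fun k => v k (len + i) else ∅
  let st : List (Finset ℕ) := (p j).stem ++ (List.range (N - len)).map g
  have hstlen : st.length = len + (N - len) := by
    simp only [st, List.length_append, List.length_map, List.length_range, hlen]
  have hst1 : ∀ i < len, st.getD i ∅ = (p j).stem.getD i ∅ := by
    intro i hi
    exact List.getD_append _ _ _ _ hi
  have hst2 : ∀ i, len ≤ i → i < st.length → st.getD i ∅ = g (i - len) := by
    intro i hi hi'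
    exact getD_append_map _ hi (by omega)
  have hleg : rs j → Legit (⟨st, (p j).pr⟩ : CV M) := by
    intro hj
    have hl := p.legit hj
    refine ⟨?_, ?_⟩
    · show (p j).pr.card ≤ wf st.length
      exact hl.1.trans (wf_mono (by omega))
    · intro i hi
      show (st.getD i ∅).card ≤ wf i
      have hi' : i < st.length := hi
      by_cases h : i < len
      · rw [hst1 i h]
        exact hl.2 i h
      · rw [hst2 i (not_lt.1 h) hi']
        simp only [g, if_pos hj]
        exact Finset.card_image_le.trans (hl.1.trans (wf_mono (not_lt.1 h)))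
  let p1 : Cond M rs := mix S t p
  let p' : Cond M rs := upd p1 j ⟨st, (p j).pr⟩ hleg
  have hp'j : p' j = ⟨st, (p j).pr⟩ := upd_same p1 j _ hleg
  have hp'S : ∀ i ∈ S, p' i = t i := by
    intro i hi
    have hne : i ≠ j := fun h => hjS (h ▸ hi)
    rw [upd_of_ne p1 _ hleg hne]
    exact mix_mem t p hi
  have hp'o : ∀ i, i ∉ S → i ≠ j → p' i = p i := by
    intro i hi hne
    rw [upd_of_ne p1 _ hleg hne]
    exact mix_notMem t p hi
  refine ⟨p', ?_, ?_, ?_⟩
  · intro i _
    by_cases hi : i ∈ S
    · exact ext_congr i (fun l hl => (hp'S l (hS i hi l hl)).symm) (hp'S i hi).symm rfl (htp i hi)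
    · by_cases hij : i = j
      · subst hij
        rw [ext_iff, hp'j]
        refine ⟨List.prefix_append _ _, Finset.Subset.refl _, ?_, ?_⟩
        · intro k hk x c hx m hm hm' t' ht' n hn u _ _
          have hrs : rs i := (hG.loc i k x c hx).1
          have htt : le Γ S t' t := le_trans' hS ht'
            (le_congr hS (fun l hl => (hp'S l hl).symm) (fun _ _ => rfl) (le_refl' S t))
          have hm1 : m < st.length := hm'
          have hm2 : len ≤ m := hm
          have hmN : m < N := by omega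
          have h1 : Val (le Γ S) t' x m (v k m) := by
            have := (hv k m hk hmN).mono hS htt
            rwa [hx] at this
          have h2 : n = v k m := Val.unique hn h1
          show n ∈ st.getD m ∅
          rw [hst2 m hm2 hm1, h2]
          have h3 : len + (m - len) = m := by omega
          simp only [g, if_pos hrs]
          refine Finset.mem_image.2 ⟨k, hk, ?_⟩
          simp only [h3]
        · intro k hk x hx m hm hm' hne
          exfalso
          have hrs : ¬ rs i := hG.dis i (hG.spa i k x hx).1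
          have hne' : (st.getD m ∅).Nonempty := hne
          rw [hst2 m hm hm'] at hne'
          simp only [g, if_neg hrs] at hne'
          exact absurd hne' Finset.not_nonempty_empty
      · exact ext_of_eq (hp'o i hi hij)
  · rw [hp'j]
    show N ≤ st.length
    omega
  · rw [hp'j]

end Pool.Agent.H631.RO
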