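import Mathlib

/-!
# Additivity of the Rothberger property: the combinatorial statement
-/

set_option autoImplicit false

namespace Pool.Agent.H631.RO

/-- the bound of the values which are captured -/
def Bf (t : ℕ) : ℕ := t ^ t

/-- the width of the slaloms which capture -/
def wf (t : ℕ) : ℕ := 2 ^ (t * t * (t ^ t + 4))

/-- the width of the slaloms which do not capture -/
def hf (n : ℕ) : ℕ := 2 ^ (3 * n)

/-- `S` is a slalom of width `h`: every `S n` has at most `h n` elements. -/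
def Slalom (h : ℕ → ℕ) (S : ℕ → ℕ → Prop) : Prop :=
  ∀ (n : ℕ) (t : Finset ℕ), h n < t.card → ∃ v ∈ t, ¬ S n v

/-- There is a family of functions indexed by `K` which is not captured by any slalom of
width `8 ^ n`. -/
def NotLoc (K : Type) : Prop :=
  ∃ c : K → ℕ → ℕ, ∀ S : ℕ → ℕ → Prop, Slalom hf S →
    ∃ k, ∀ N, ∃ n, N ≤ n ∧ ¬ S n (c k n)

/-- For all functions `f k` (`k : T`) there is an infinite set `C` of natural numbers such that,
for all `k`, `f k i ≤ j` for all `i < j` in `C` with `j` sufficiently large, and such that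
for all functions `x k` (`k : T`) there is a slalom `S` of width `wf`
with `x k i ∈ S i`, for all `k` and all sufficiently large `i` for which
`x k i < j ^ j`, where `j` is the next element of `C` after `i`. -/
def SparseCap (T : Type) : Prop :=
  ∀ f : T → ℕ → ℕ, ∃ C : ℕ → Prop, (∀ N, ∃ i, N ≤ i ∧ C i) ∧
    (∀ k, ∃ N, ∀ i j, N ≤ j → C i → C j → i < j → f k i ≤ j) ∧
    ∀ x : T → ℕ → ℕ, ∃ S : ℕ → ℕ → Prop, Slalom wf S ∧
      ∀ k, ∃ N, ∀ i j, N ≤ i → i < j → C j → (∀ l, i < l → l < j → ¬ C l) →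
        x k i < Bf j → S i (x k i)

/-- the combinatorial statement which is forced -/
def PhiFor (K T : Type) : Prop := NotLoc K ∧ SparseCap T

theorem Bf_mono : Monotone Bf := by
  intro a b h
  rcases Nat.eq_zero_or_pos b with rfl | hb
  · obtain rfl : a = 0 := Nat.le_zero.1 h
    exact le_rfl
  rcases Nat.eq_zero_or_pos a with rfl | ha
  · show 0 ^ 0 ≤ b ^ b
    simpa using Nat.one_le_pow b b hb
  · exact (Nat.pow_le_pow_left h a).trans (Nat.pow_le_pow_right hb h)

theorem wf_mono : Monotone wf := by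
  intro a b h
  refine Nat.pow_le_pow_right (by norm_num) ?_
  have h1 : a ^ a ≤ b ^ b := Bf_mono h
  gcongr

/-- the number of patterns below `t` -/
def Mf (t : ℕ) : ℕ := (2 ^ Bf t) ^ t

theorem room (m N C : ℕ) : ∀ t, m ≤ t → C ≤ t → 2 ≤ t → N ≤ hf t + 1 →
    Mf t ^ m * N * C ≤ wf t := by
  intro t hm hC ht hN
  have h1 : Mf t ^ m = 2 ^ (Bf t * t * m) := by
    rw [Mf, ← pow_mul, ← pow_mul, mul_assoc]
  have h2 : N ≤ 2 ^ (3 * t + 1) := by
    refine hN.trans ?_
    rw [hf, pow_succ]
    have : 1 ≤ 2 ^ (3 * t) := Nat.one_le_two_pow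
    omega
  have h3 : C ≤ 2 ^ t := hC.trans Nat.lt_two_pow_self.le
  calc Mf t ^ m * N * C ≤ 2 ^ (Bf t * t * m) * 2 ^ (3 * t + 1) * 2 ^ t := by
        rw [h1]; gcongr
    _ = 2 ^ (Bf t * t * m + (3 * t + 1) + t) := by rw [← pow_add, ← pow_add]
    _ ≤ wf t := by
        refine Nat.pow_le_pow_right (by norm_num) ?_
        show Bf t * t * m + (3 * t + 1) + t ≤ t * t * (Bf t + 4)
        have h4 : Bf t * t * m ≤ Bf t * t * t := Nat.mul_le_mul_left _ hm
        have h5 : t * t * (Bf t + 4) = Bf t * t * t + 4 * (t * t) := by ring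
        have h6 : 2 * t ≤ t * t := Nat.mul_le_mul_right t ht
        omega

theorem exists_room (m C : ℕ) : ∃ L, ∀ t, L ≤ t → ∀ N, N ≤ hf t + 1 →
    Mf t ^ m * N * C ≤ wf t :=
  ⟨max 2 (max m C), fun t ht N hN => room m N C t
    ((le_max_left _ _).trans ((le_max_right _ _).trans ht))
    ((le_max_right _ _).trans ((le_max_right _ _).trans ht))
    ((le_max_left _ _).trans ht) hN⟩

end Pool.Agent.H631.RO
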